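import Pool.Agent.Lib.HC.L.Defs
import Pool.Agent.Lib.HC.B.Cap

/-!
# PROJECT HC+, part 3: the cap product with an invariant 2-form (helper38)

`D` a set of rational endomorphisms of `B` with `i` in its real span.  If the 2-form
`∑_j p_j ∧ q_j` is killed by `D` then the cap product with it preserves `Alg`: the form is a
`ℂ`-linear combination of rational forms killed by `D`, hence by `i`, hence of type `(1,1)`.
-/

set_option autoImplicit false

open Finset

noncomputable section

namespace HC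
namespace W

variable {B : AV}

/-- A basis of the lattice. -/
theorem exists_bas (T : AV) : ∃ (n : ℕ) (b : Module.Basis (Fin n) ℝ T.V),
    (∀ i, b i ∈ T.L) ∧ ∀ v ∈ T.L, ∀ i, ∃ z : ℤ, b.repr v i = z := by
  have : Module.Free ℤ T.L := ZLattice.module_free ℝ T.L
  have : Module.Finite ℤ T.L := ZLattice.module_finite ℝ T.L
  let C := Module.Free.chooseBasis ℤ T.L
  let ι := Module.Free.ChooseBasisIndex ℤ T.L
  refine ⟨Fintype.card ι, (C.ofZLatticeBasis ℝ T.L).reindex (Fintype.equivFin ι), fun i => ?_,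
    fun v hv i => ?_⟩
  · rw [Module.Basis.reindex_apply, Module.Basis.ofZLatticeBasis_apply]
    exact (C _).2
  · refine ⟨(C.repr ⟨v, hv⟩ ((Fintype.equivFin ι).symm i) : ℤ), ?_⟩
    have h := C.ofZLatticeBasis_repr_apply ℝ T.L ⟨v, hv⟩ ((Fintype.equivFin ι).symm i)
    rw [Module.Basis.repr_reindex_apply]
    exact h

/-- The 2-form `∑_j p_j ∧ q_j` as a bilinear map. -/
def bil {r : ℕ} (p q : Fin r → (B.V →ₗ[ℝ] ℂ)) : B.V →ₗ[ℝ] B.V →ₗ[ℝ] ℂ :=
  LinearMap.mk₂ ℝ (fun u v => ∑ j, (p j u * q j v - p j v * q j u))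
    (fun u u' v => by
      rw [← sum_add_distrib]
      refine sum_congr rfl fun j _ => ?_
      rw [map_add, map_add]
      ring)
    (fun x u v => by
      rw [smul_sum]
      refine sum_congr rfl fun j _ => ?_
      rw [map_smul, map_smul, Complex.real_smul, Complex.real_smul, Complex.real_smul]
      ring)
    (fun u v v' => by
      rw [← sum_add_distrib]
      refine sum_congr rfl fun j _ => ?_
      rw [map_add, map_add]
      ring)
    (fun x u v => by
      rw [smul_sum]
      refine sum_congr rfl fun j _ => ?_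
      rw [map_smul, map_smul, Complex.real_smul, Complex.real_smul, Complex.real_smul]
      ring)

theorem bil_apply {r : ℕ} (p q : Fin r → (B.V →ₗ[ℝ] ℂ)) (u v : B.V) :
    bil p q u v = ∑ j, (p j u * q j v - p j v * q j u) := rfl

/-- The bilinear map with given values on a basis. -/
def ofM {n : ℕ} (b : Module.Basis (Fin n) ℝ B.V) (R : Fin n → Fin n → ℂ) :
    B.V →ₗ[ℝ] B.V →ₗ[ℝ] ℂ :=
  b.constr ℝ fun i => b.constr ℝ fun k => R i k

theorem ofM_basis {n : ℕ} (b : Module.Basis (Fin n) ℝ B.V) (R : Fin n → Fin n → ℂ)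
    (i k : Fin n) : ofM b R (b i) (b k) = R i k := by
  rw [ofM, Module.Basis.constr_basis, Module.Basis.constr_basis]

theorem ofM_apply {n : ℕ} (b : Module.Basis (Fin n) ℝ B.V) (R : Fin n → Fin n → ℂ)
    (u v : B.V) : ofM b R u v = ∑ i, ∑ k, ((b.repr u i : ℝ) : ℂ) * ((b.repr v k : ℝ) : ℂ) * R i k := by
  rw [ofM, Module.Basis.constr_apply_fintype, LinearMap.sum_apply]
  refine sum_congr rfl fun i _ => ?_
  rw [LinearMap.smul_apply, Module.Basis.constr_apply_fintype, smul_sum]
  refine sum_congr rfl fun k _ => ?_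
  rw [Module.Basis.equivFun_apply, Module.Basis.equivFun_apply, Complex.real_smul,
    Complex.real_smul]
  ring

theorem bil_ext {n : ℕ} (b : Module.Basis (Fin n) ℝ B.V) {F G : B.V →ₗ[ℝ] B.V →ₗ[ℝ] ℂ}
    (h : ∀ i k, F (b i) (b k) = G (b i) (b k)) : F = G :=
  b.ext fun i => b.ext fun k => h i k

/-- The coordinates. -/
def cfw {n : ℕ} (b : Module.Basis (Fin n) ℝ B.V) (i : Fin n) : B.V →ₗ[ℝ] ℂ :=
  (b.coord i).smulRight (1 : ℂ)

/-- **The cap product with a 2-form killed by `D`.** -/
theorem cap_inv (D : Set (Module.End ℝ B.V)) (hD : ∀ X ∈ D, RatEnd B X)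
    (hJ : mulI B ∈ Submodule.span ℝ D) {r : ℕ} (p q : Fin r → (B.V →ₗ[ℝ] ℂ))
    (hk : ∀ X ∈ D, ∀ u v : B.V, bil p q (X u) v + bil p q u (X v) = 0) {m : ℕ}
    {c : Hlg B (m + 2)} (hc : Alg B (m + 2) c) : Alg B m (cap p q c) := by
  classical
  obtain ⟨n, b, hbL, hbz⟩ := exists_bas B
  -- the rational span of the values
  let W : Submodule ℚ ℂ := Submodule.span ℚ (Set.range fun t : Fin n × Fin n =>
    bil p q (b t.1) (b t.2))
  have hfin : Module.Finite ℚ W := Module.Finite.span_of_finite ℚ (Set.finite_range _)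
  let κ := Module.finBasis ℚ W
  have hmem : ∀ i k, bil p q (b i) (b k) ∈ W := fun i k =>
    Submodule.subset_span ⟨(i, k), rfl⟩
  let R : Fin (Module.finrank ℚ W) → Fin n → Fin n → ℚ := fun l i k =>
    κ.repr ⟨bil p q (b i) (b k), hmem i k⟩ l
  have hR : ∀ i k, bil p q (b i) (b k) = ∑ l, (R l i k : ℂ) * (κ l : ℂ) := by
    intro i k
    have h := congrArg (Subtype.val) (κ.sum_repr ⟨bil p q (b i) (b k), hmem i k⟩)
    refine h.symm.trans ?_
    rw [AddSubmonoidClass.coe_finsetSum]
    refine sum_congr rfl fun l _ => ?_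
    rw [Submodule.coe_smul, Rat.smul_def]
  have halt : ∀ u v, bil p q v u = -bil p q u v := by
    intro u v
    rw [bil_apply, bil_apply, ← sum_neg_distrib]
    exact sum_congr rfl fun j _ => by ring
  have hRa : ∀ l i k, R l k i = -R l i k := by
    intro l i k
    have h : (⟨bil p q (b k) (b i), hmem k i⟩ : W) = -⟨bil p q (b i) (b k), hmem i k⟩ :=
      Subtype.ext (halt (b i) (b k))
    change κ.repr ⟨bil p q (b k) (b i), hmem k i⟩ l = _
    rw [h, map_neg]
    rfl
  let E : Fin (Module.finrank ℚ W) → (B.V →ₗ[ℝ] B.V →ₗ[ℝ] ℂ) := fun l =>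
    ofM b fun i k => (R l i k : ℂ)
  have hE : bil p q = ∑ l, (κ l : ℂ) • E l := by
    refine bil_ext b fun i k => ?_
    rw [hR, LinearMap.sum_apply, LinearMap.sum_apply]
    refine sum_congr rfl fun l _ => ?_
    rw [LinearMap.smul_apply, LinearMap.smul_apply, ofM_basis, smul_eq_mul, mul_comm]
  have hE' : ∀ u v, bil p q u v = ∑ l, (κ l : ℂ) * E l u v := by
    intro u v
    rw [hE, LinearMap.sum_apply, LinearMap.sum_apply]
    exact sum_congr rfl fun l _ => by rw [LinearMap.smul_apply, LinearMap.smul_apply, smul_eq_mul]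
  -- rational coordinates
  have hXr : ∀ X ∈ D, ∀ i k, ∃ x : ℚ, b.repr (X (b i)) k = x := by
    intro X hX i k
    obtain ⟨N, hN, h1⟩ := hD X hX (b i) (hbL i)
    obtain ⟨z, hz⟩ := hbz _ h1 k
    refine ⟨z / N, ?_⟩
    rw [map_nsmul, Finsupp.smul_apply, nsmul_eq_mul] at hz
    have hN' : (N : ℝ) ≠ 0 := Nat.cast_ne_zero.2 hN
    push_cast
    rw [eq_div_iff hN', mul_comm]
    exact hz
  have hEr : ∀ l (u v : B.V), (∀ i, ∃ x : ℚ, b.repr u i = x) → (∀ i, ∃ x : ℚ, b.repr v i = x) →
      ∃ x : ℚ, E l u v = x := by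
    intro l u v hu hv
    choose x hx using hu
    choose y hy using hv
    refine ⟨∑ i, ∑ k, x i * y k * R l i k, ?_⟩
    rw [ofM_apply]
    push_cast
    refine sum_congr rfl fun i _ => sum_congr rfl fun k _ => ?_
    rw [hx, hy]
    push_cast
    ring
  have hbr : ∀ i k, ∃ x : ℚ, b.repr (b i) k = x := by
    intro i k
    obtain ⟨z, hz⟩ := hbz _ (hbL i) k
    exact ⟨z, by rw [hz]; push_cast; rfl⟩
  -- `D` kills `E l`
  have hkill : ∀ X ∈ D, ∀ l (u v : B.V), E l (X u) v + E l u (X v) = 0 := by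
    intro X hX l
    have h1 : ∀ i k, E l (X (b i)) (b k) + E l (b i) (X (b k)) = 0 := by
      intro i k
      have h2 : ∀ l, ∃ x : ℚ, E l (X (b i)) (b k) + E l (b i) (X (b k)) = x := by
        intro l
        obtain ⟨x, hx⟩ := hEr l _ _ (hXr X hX i) (hbr k)
        obtain ⟨y, hy⟩ := hEr l _ _ (hbr i) (hXr X hX k)
        exact ⟨x + y, by rw [hx, hy]; push_cast; rfl⟩
      choose x hx using h2
      have h3 : ∑ l, x l • κ l = 0 := by
        apply Subtype.ext
        rw [AddSubmonoidClass.coe_finsetSum, Submodule.coe_zero]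
        have h4 := hk X hX (b i) (b k)
        rw [hE', hE', ← sum_add_distrib] at h4
        rw [← h4]
        refine sum_congr rfl fun l _ => ?_
        rw [Submodule.coe_smul, Rat.smul_def, ← hx l]
        ring
      have h5 := (Fintype.linearIndependent_iff.1 κ.linearIndependent) x h3 l
      rw [hx l, h5, Rat.cast_zero]
    have h6 : (E l).compl₁₂ X LinearMap.id + (E l).compl₁₂ LinearMap.id X = 0 := by
      refine bil_ext b fun i k => ?_
      rw [LinearMap.add_apply, LinearMap.add_apply, LinearMap.compl₁₂_apply,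
        LinearMap.compl₁₂_apply, LinearMap.id_apply, LinearMap.id_apply, h1 i k]
      rfl
    intro u v
    have h7 := LinearMap.congr_fun (LinearMap.congr_fun h6 u) v
    rw [LinearMap.add_apply, LinearMap.add_apply, LinearMap.compl₁₂_apply,
      LinearMap.compl₁₂_apply, LinearMap.id_apply, LinearMap.id_apply] at h7
    exact h7
  have hkJ : ∀ l (u v : B.V), E l (mulI B u) v + E l u (mulI B v) = 0 := by
    intro l u v
    have h1 : ∀ Y ∈ Submodule.span ℝ D, E l (Y u) v + E l u (Y v) = 0 := by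
      intro Y hY
      refine Submodule.span_induction (fun X hX => hkill X hX l u v) ?_ ?_ ?_ hY
      · simp
      · intro Y Z _ _ hY hZ
        rw [LinearMap.add_apply, LinearMap.add_apply, map_add, map_add, LinearMap.add_apply]
        linear_combination hY + hZ
      · intro a Y _ hY
        rw [LinearMap.smul_apply, LinearMap.smul_apply, map_smul, map_smul, LinearMap.smul_apply,
          ← smul_add, hY, smul_zero]
    exact h1 _ hJ
  -- the divisors
  let p' : Fin (Module.finrank ℚ W) → Fin (n * n) → (B.V →ₗ[ℝ] ℂ) := fun l t =>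
    ((R l (finProdFinEquiv.symm t).1 (finProdFinEquiv.symm t).2 : ℂ) / 2) •
      cfw b (finProdFinEquiv.symm t).1
  let q' : Fin (Module.finrank ℚ W) → Fin (n * n) → (B.V →ₗ[ℝ] ℂ) := fun _ t =>
    cfw b (finProdFinEquiv.symm t).2
  have hcf : ∀ i (u : B.V), cfw b i u = ((b.repr u i : ℝ) : ℂ) := by
    intro i u
    rw [cfw, LinearMap.smulRight_apply, Module.Basis.coord_apply, Complex.real_smul, mul_one]
  have hpq : ∀ l (u v : B.V), ∑ t, (p' l t u * q' l t v - p' l t v * q' l t u) = E l u v := by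
    intro l u v
    have h1 : ∑ t, (p' l t u * q' l t v - p' l t v * q' l t u) =
        ∑ t : Fin n × Fin n, ((R l t.1 t.2 : ℂ) / 2 * ((b.repr u t.1 : ℝ) : ℂ) *
          ((b.repr v t.2 : ℝ) : ℂ) - (R l t.1 t.2 : ℂ) / 2 * ((b.repr v t.1 : ℝ) : ℂ) *
          ((b.repr u t.2 : ℝ) : ℂ)) := by
      refine Fintype.sum_equiv finProdFinEquiv.symm _ _ fun t => ?_
      simp only [p', q', LinearMap.smul_apply, hcf, smul_eq_mul]
    rw [h1, Fintype.sum_prod_type, ofM_apply]
    simp only [sum_sub_distrib]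
    have h2 : ∑ i, ∑ k, (R l i k : ℂ) / 2 * ((b.repr v i : ℝ) : ℂ) * ((b.repr u k : ℝ) : ℂ) =
        -∑ i, ∑ k, (R l i k : ℂ) / 2 * ((b.repr u i : ℝ) : ℂ) * ((b.repr v k : ℝ) : ℂ) := by
      rw [sum_comm, ← sum_neg_distrib]
      refine sum_congr rfl fun i _ => ?_
      rw [← sum_neg_distrib]
      refine sum_congr rfl fun k _ => ?_
      rw [hRa l i k]
      push_cast
      ring
    rw [h2, sub_neg_eq_add, ← sum_add_distrib]
    refine sum_congr rfl fun i _ => ?_
    rw [← sum_add_distrib]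
    refine sum_congr rfl fun k _ => ?_
    ring
  refine Alg.cap_of_span p q (fun _ => n * n) p' q' (fun l => ⟨fun u hu v hv => ?_,
    fun u v => ?_⟩) (fun l => (κ l : ℂ)) (fun u v => ?_) hc
  · rw [hpq]
    refine hEr l u v (fun i => ?_) (fun i => ?_)
    · obtain ⟨z, hz⟩ := hbz u hu i
      exact ⟨z, by rw [hz]; push_cast; rfl⟩
    · obtain ⟨z, hz⟩ := hbz v hv i
      exact ⟨z, by rw [hz]; push_cast; rfl⟩
  · rw [hpq, hpq]
    have h1 := hkJ l u (Complex.I • v)
    have h2 : mulI B (Complex.I • v) = -v := by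
      change Complex.I • (Complex.I • v) = -v
      rw [smul_smul, Complex.I_mul_I, neg_smul, one_smul]
    rw [h2, map_neg, add_neg_eq_zero] at h1
    exact h1
  · have h1 := hE' u v
    rw [bil_apply] at h1
    rw [h1]
    exact sum_congr rfl fun l _ => by rw [hpq]

end W
end HC
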