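import Pool.Agent.Lib.HC.L.Defs

/-!
# PROJECT HC+, part 3: THEOREM W (helper1)

`S_W`: on an abelian variety `B` with complex coordinates `z_i`, every homology class killed by a
Lie algebra `D` of rational endomorphisms acting on each `(z_i, conj z_i)` by a matrix of trace
zero, with `i` in its real span, not `ℂ`-linear on any coordinate, is algebraic.
-/

set_option autoImplicit false

noncomputable section

namespace HC
namespace W

open ComplexConjugate

/-- **THEOREM W.** -/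
def S_W : Prop :=
  ∀ (B : AV) (I : Type) [Fintype I] (z : I → (B.V →ₗ[ℂ] ℂ)),
    (Function.Bijective fun (v : B.V) (i : I) => z i v) →
    ∀ D : Set (Module.End ℝ B.V), (∀ X ∈ D, RatEnd B X) →
    (∀ X ∈ D, ∀ Y ∈ D, X * Y - Y * X ∈ D) → mulI B ∈ Submodule.span ℝ D →
    (∀ X ∈ D, ∀ i, ∃ al be : ℂ, al + conj al = 0 ∧
      ∀ v, z i (X v) = al * z i v + be * conj (z i v)) →
    (∀ i, ∃ X ∈ D, ∃ v, z i (X (Complex.I • v)) ≠ Complex.I * z i (X v)) →
    ∀ (m : ℕ) (c : Hlg B m), (∀ X ∈ D, ∀ a, lieAct X c a = 0) → Alg B m c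

/-- **LEMMA P**: the same hypotheses; `i` is in the real span of the commutators. -/
def S_WP : Prop :=
  ∀ (B : AV) (I : Type) [Fintype I] (z : I → (B.V →ₗ[ℂ] ℂ)),
    (Function.Bijective fun (v : B.V) (i : I) => z i v) →
    ∀ D : Set (Module.End ℝ B.V), (∀ X ∈ D, RatEnd B X) →
    (∀ X ∈ D, ∀ Y ∈ D, X * Y - Y * X ∈ D) → mulI B ∈ Submodule.span ℝ D →
    (∀ X ∈ D, ∀ i, ∃ al be : ℂ, al + conj al = 0 ∧
      ∀ v, z i (X v) = al * z i v + be * conj (z i v)) →
    (∀ i, ∃ X ∈ D, ∃ v, z i (X (Complex.I • v)) ≠ Complex.I * z i (X v)) →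
    mulI B ∈ Submodule.span ℝ {Z | ∃ X ∈ D, ∃ Y ∈ D, Z = X * Y - Y * X}

/-- **LEMMA C** (pure linear algebra).  `P`, `Q`, `R` subspaces of `ℂ^I` with `P Q ⊆ R`,
`R P ⊆ P`, `R Q ⊆ Q`, and no coordinate vanishes on `P` or on `Q`.  Then there are a partition
of `I` into classes and a function `lam` without zeros such that `P` is spanned by the
`lam 1_ρ`, `Q` by the `lam⁻¹ 1_ρ`, and the elements of `R` are constant on the classes.
Proof.  `A := {a | a P ⊆ P, a Q ⊆ Q}` is a subalgebra of `ℂ^I` which contains `R`.  `i ~ k` iff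
`a i = a k` for all `a ∈ A`.  If `i` and `k` are not equivalent take `a ∈ A` with `a i ≠ a k`:
`(a - a k)/(a i - a k) ∈ A` is `1` at `i`, `0` at `k`; the product over all `k` not equivalent to
`i` is the indicator of the class of `i`, an element of `A`.  `P` contains `lam` without zeros
(induction over the coordinates: `w + t w'` for all but finitely many `t`), `Q` contains `q`
without zeros.  `lam q ∈ R ⊆ A` is constant on the classes; for `w ∈ P` also `w q ∈ R`, so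
`w = const * lam` on each class.  The same for `w ∈ Q` with `lam w ∈ R`.  `lam 1_ρ ∈ P` because
`1_ρ ∈ A`; `lam⁻¹ 1_ρ` is a multiple of `q 1_ρ ∈ Q`. -/
def S_C : Prop :=
  ∀ (I : Type) [Fintype I] (P Q R : Submodule ℂ (I → ℂ)),
    (∀ w ∈ P, ∀ w' ∈ Q, w * w' ∈ R) → (∀ w ∈ R, ∀ w' ∈ P, w * w' ∈ P) →
    (∀ w ∈ R, ∀ w' ∈ Q, w * w' ∈ Q) → (∀ i, ∃ w ∈ P, w i ≠ 0) → (∀ i, ∃ w ∈ Q, w i ≠ 0) →
    ∃ (K : Type) (_ : Fintype K) (_ : DecidableEq K) (cl : I → K) (lam : I → ℂ),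
      (∀ i, lam i ≠ 0) ∧ (∀ k, (fun i => if cl i = k then lam i else 0) ∈ P) ∧
      (∀ k, (fun i => if cl i = k then (lam i)⁻¹ else 0) ∈ Q) ∧
      (∀ w ∈ P, ∃ f : K → ℂ, ∀ i, w i = f (cl i) * lam i) ∧
      (∀ w ∈ Q, ∃ f : K → ℂ, ∀ i, w i = f (cl i) * (lam i)⁻¹) ∧
      ∀ w ∈ R, ∃ f : K → ℂ, ∀ i, w i = f (cl i)

/-- **CAP-INV**.  The cap product with a 2-form `∑_t p_t ∧ q_t` killed by rational endomorphisms
whose real span contains `i` preserves `Alg`.
Proof.  Let `E u v = ∑_t (p_t u q_t v - p_t v q_t u)`, `b` a `ℤ`-basis of the lattice (a real basis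
of `B.V`), and `κ_l` a `ℚ`-basis of the `ℚ`-span of the complex numbers `E (b_s) (b_t)`:
`E = ∑_l κ_l E_l`, `E_l` real bilinear, alternating, rational on the lattice.  For `X ∈ D`,
`u, v` in the lattice, `N X u`, `N X v` in the lattice: `0 = ∑_l κ_l (E_l (N X u) v + E_l u (N X v))`
with rational coefficients, so `E_l (X u) v + E_l u (X v) = 0` on the lattice, hence everywhere, and
by linearity for `X = i` (in the real span of `D`).  So `E_l (i u) (i v) = - E_l u (i i v) = E_l u v`.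
`E_l = ∑_s (1/2) b_s^* ∧ E_l (b_s, ·)` is `IsDiv`, and the cap product depends only on the 2-form
(`cap_form` of `HC/B/Cap.lean`). -/
def S_CapInv : Prop :=
  ∀ (B : AV) (D : Set (Module.End ℝ B.V)), (∀ X ∈ D, RatEnd B X) →
    mulI B ∈ Submodule.span ℝ D → ∀ (r : ℕ) (p q : Fin r → (B.V →ₗ[ℝ] ℂ)),
    (∀ X ∈ D, ∀ u v : B.V, ∑ t, (p t (X u) * q t v - p t v * q t (X u)) +
      ∑ t, (p t u * q t (X v) - p t (X v) * q t u) = 0) →
    ∀ (m : ℕ) (c : Hlg B (m + 2)), Alg B (m + 2) c → Alg B m (cap p q c)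

end W
end HC
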