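import Pool.Agent.Lib.HC.W.Tot

/-!
# PROJECT HC+, part 3, THEOREM W: the basis `z_i`, `conj z_i` of the real functionals (helper1)

`V` a complex vector space with coordinates `z_i`, `e_i` the dual vectors. `M = Hom_ℝ(V, ℂ)` has the
basis `zz i = z_i`, `zb i = conj z_i`, with the dual functionals `zs i`, `zt i`.
`opP w : z_i ↦ w_i conj z_i`, `opQ w : conj z_i ↦ w_i z_i`, `opR w : z_i ↦ w_i z_i`,
`conj z_i ↦ - w_i conj z_i`.  `pb X : a ↦ a ∘ X`.
-/

set_option autoImplicit false

noncomputable section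

namespace HC
namespace W

open ComplexConjugate

section bas

variable {V : Type} [AddCommGroup V] [Module ℂ V] {I : Type} [Fintype I] [DecidableEq I]
  (z : I → (V →ₗ[ℂ] ℂ)) (e : I → V)

/-- `z_i`. -/
def zz (i : I) : V →ₗ[ℝ] ℂ := (z i).restrictScalars ℝ

/-- `conj z_i`. -/
def zb (i : I) : V →ₗ[ℝ] ℂ := Complex.conjAe.toLinearMap ∘ₗ (zz z i)

omit [Fintype I] [DecidableEq I] in
theorem zz_apply (i : I) (v : V) : zz z i v = z i v := rfl

omit [Fintype I] [DecidableEq I] in
theorem zb_apply (i : I) (v : V) : zb z i v = conj (z i v) := rfl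

/-- Evaluation. -/
def ev (v : V) : (V →ₗ[ℝ] ℂ) →ₗ[ℂ] ℂ where
  toFun a := a v
  map_add' _ _ := rfl
  map_smul' _ _ := rfl

/-- The dual functional of `z_i`. -/
def zs (i : I) : (V →ₗ[ℝ] ℂ) →ₗ[ℂ] ℂ := (1 / 2 : ℂ) • (ev (e i) - Complex.I • ev (Complex.I • e i))

/-- The dual functional of `conj z_i`. -/
def zt (i : I) : (V →ₗ[ℝ] ℂ) →ₗ[ℂ] ℂ := (1 / 2 : ℂ) • (ev (e i) + Complex.I • ev (Complex.I • e i))

omit [Fintype I] [DecidableEq I] in
theorem zs_apply (i : I) (a : V →ₗ[ℝ] ℂ) :
    zs e i a = 1 / 2 * (a (e i) - Complex.I * a (Complex.I • e i)) := rfl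

omit [Fintype I] [DecidableEq I] in
theorem zt_apply (i : I) (a : V →ₗ[ℝ] ℂ) :
    zt e i a = 1 / 2 * (a (e i) + Complex.I * a (Complex.I • e i)) := rfl

/-- The basis. -/
def bb : I ⊕ I → (V →ₗ[ℝ] ℂ) := Sum.elim (zz z) (zb z)

/-- The dual functionals. -/
def bs : I ⊕ I → ((V →ₗ[ℝ] ℂ) →ₗ[ℂ] ℂ) := Sum.elim (zs e) (zt e)

/-- `w ↦ opP w`. -/
def opP : (I → ℂ) →ₗ[ℂ] Module.End ℂ (V →ₗ[ℝ] ℂ) where
  toFun w := ∑ i, w i • (zs e i).smulRight (zb z i)
  map_add' w w' := by
    rw [← Finset.sum_add_distrib]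
    exact Finset.sum_congr rfl fun i _ => add_smul _ _ _
  map_smul' x w := by
    rw [RingHom.id_apply, Finset.smul_sum]
    exact Finset.sum_congr rfl fun i _ => mul_smul _ _ _

/-- `w ↦ opQ w`. -/
def opQ : (I → ℂ) →ₗ[ℂ] Module.End ℂ (V →ₗ[ℝ] ℂ) where
  toFun w := ∑ i, w i • (zt e i).smulRight (zz z i)
  map_add' w w' := by
    rw [← Finset.sum_add_distrib]
    exact Finset.sum_congr rfl fun i _ => add_smul _ _ _
  map_smul' x w := by
    rw [RingHom.id_apply, Finset.smul_sum]
    exact Finset.sum_congr rfl fun i _ => mul_smul _ _ _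

/-- `w ↦ opR w`. -/
def opR : (I → ℂ) →ₗ[ℂ] Module.End ℂ (V →ₗ[ℝ] ℂ) where
  toFun w := ∑ i, w i • ((zs e i).smulRight (zz z i) - (zt e i).smulRight (zb z i))
  map_add' w w' := by
    rw [← Finset.sum_add_distrib]
    exact Finset.sum_congr rfl fun i _ => add_smul _ _ _
  map_smul' x w := by
    rw [RingHom.id_apply, Finset.smul_sum]
    exact Finset.sum_congr rfl fun i _ => mul_smul _ _ _

omit [DecidableEq I] in
theorem opP_apply (w : I → ℂ) (a : V →ₗ[ℝ] ℂ) :
    opP z e w a = ∑ i, w i • (zs e i a • zb z i) := by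
  show (∑ i, w i • (zs e i).smulRight (zb z i)) a = _
  rw [LinearMap.sum_apply]
  rfl

omit [DecidableEq I] in
theorem opQ_apply (w : I → ℂ) (a : V →ₗ[ℝ] ℂ) :
    opQ z e w a = ∑ i, w i • (zt e i a • zz z i) := by
  show (∑ i, w i • (zt e i).smulRight (zz z i)) a = _
  rw [LinearMap.sum_apply]
  rfl

omit [DecidableEq I] in
theorem opR_apply (w : I → ℂ) (a : V →ₗ[ℝ] ℂ) :
    opR z e w a = ∑ i, w i • (zs e i a • zz z i - zt e i a • zb z i) := by
  show (∑ i, w i • ((zs e i).smulRight (zz z i) - (zt e i).smulRight (zb z i))) a = _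
  rw [LinearMap.sum_apply]
  rfl

/-- Precomposition with a real endomorphism. -/
def pb : Module.End ℝ V →ₗ[ℝ] Module.End ℂ (V →ₗ[ℝ] ℂ) where
  toFun X :=
    { toFun := fun a => a ∘ₗ X
      map_add' := fun _ _ => rfl
      map_smul' := fun _ _ => rfl }
  map_add' X Y := by
    refine LinearMap.ext fun a => LinearMap.ext fun v => ?_
    exact map_add a (X v) (Y v)
  map_smul' x X := by
    refine LinearMap.ext fun a => LinearMap.ext fun v => ?_
    exact map_smul a x (X v)

theorem pb_apply (X : Module.End ℝ V) (a : V →ₗ[ℝ] ℂ) : pb X a = a ∘ₗ X := rfl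

theorem pb_mul (X Y : Module.End ℝ V) : pb (X * Y) = pb Y * pb X := rfl

variable (he : ∀ i k, z i (e k) = if i = k then 1 else 0)

include he

omit [Fintype I] in
theorem zs_zz (i k : I) : zs e i (zz z k) = if k = i then 1 else 0 := by
  rw [zs_apply, zz_apply, zz_apply, map_smul, smul_eq_mul, he, ← mul_assoc, Complex.I_mul_I]
  split_ifs <;> norm_num

omit [Fintype I] in
theorem zs_zb (i k : I) : zs e i (zb z k) = 0 := by
  rw [zs_apply, zb_apply, zb_apply, map_smul, smul_eq_mul, map_mul, Complex.conj_I, he,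
    ← mul_assoc, mul_neg, Complex.I_mul_I]
  split_ifs <;> simp

omit [Fintype I] in
theorem zt_zz (i k : I) : zt e i (zz z k) = 0 := by
  rw [zt_apply, zz_apply, zz_apply, map_smul, smul_eq_mul, he, ← mul_assoc, Complex.I_mul_I]
  split_ifs <;> norm_num

omit [Fintype I] in
theorem zt_zb (i k : I) : zt e i (zb z k) = if k = i then 1 else 0 := by
  rw [zt_apply, zb_apply, zb_apply, map_smul, smul_eq_mul, map_mul, Complex.conj_I, he,
    ← mul_assoc, mul_neg, Complex.I_mul_I]
  split_ifs <;> norm_num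

theorem opP_zz (w : I → ℂ) (k : I) : opP z e w (zz z k) = w k • zb z k := by
  rw [opP_apply, Finset.sum_eq_single k]
  · rw [zs_zz z e he, if_pos rfl, one_smul]
  · intro i _ hi
    rw [zs_zz z e he, if_neg (Ne.symm hi), zero_smul, smul_zero]
  · intro h
    exact absurd (Finset.mem_univ k) h

theorem opP_zb (w : I → ℂ) (k : I) : opP z e w (zb z k) = 0 := by
  rw [opP_apply]
  refine Finset.sum_eq_zero fun i _ => ?_
  rw [zs_zb z e he, zero_smul, smul_zero]

theorem opQ_zz (w : I → ℂ) (k : I) : opQ z e w (zz z k) = 0 := by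
  rw [opQ_apply]
  refine Finset.sum_eq_zero fun i _ => ?_
  rw [zt_zz z e he, zero_smul, smul_zero]

theorem opQ_zb (w : I → ℂ) (k : I) : opQ z e w (zb z k) = w k • zz z k := by
  rw [opQ_apply, Finset.sum_eq_single k]
  · rw [zt_zb z e he, if_pos rfl, one_smul]
  · intro i _ hi
    rw [zt_zb z e he, if_neg (Ne.symm hi), zero_smul, smul_zero]
  · intro h
    exact absurd (Finset.mem_univ k) h

theorem opR_zz (w : I → ℂ) (k : I) : opR z e w (zz z k) = w k • zz z k := by
  rw [opR_apply, Finset.sum_eq_single k]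
  · rw [zs_zz z e he, zt_zz z e he, if_pos rfl, one_smul, zero_smul, sub_zero]
  · intro i _ hi
    rw [zs_zz z e he, zt_zz z e he, if_neg (Ne.symm hi), zero_smul, zero_smul, sub_zero, smul_zero]
  · intro h
    exact absurd (Finset.mem_univ k) h

theorem opR_zb (w : I → ℂ) (k : I) : opR z e w (zb z k) = -(w k • zb z k) := by
  rw [opR_apply, Finset.sum_eq_single k]
  · rw [zs_zb z e he, zt_zb z e he, if_pos rfl, one_smul, zero_smul, zero_sub, smul_neg]
  · intro i _ hi
    rw [zs_zb z e he, zt_zb z e he, if_neg (Ne.symm hi), zero_smul, zero_smul, sub_zero, smul_zero]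
  · intro h
    exact absurd (Finset.mem_univ k) h

/-! The dual functionals after the operators. -/

theorem zs_opP (w : I → ℂ) (i : I) : zs e i ∘ₗ opP z e w = 0 := by
  refine LinearMap.ext fun a => ?_
  rw [LinearMap.comp_apply, opP_apply, map_sum]
  refine Finset.sum_eq_zero fun k _ => ?_
  rw [map_smul, map_smul, zs_zb z e he, smul_zero, smul_zero]

theorem zt_opQ (w : I → ℂ) (i : I) : zt e i ∘ₗ opQ z e w = 0 := by
  refine LinearMap.ext fun a => ?_
  rw [LinearMap.comp_apply, opQ_apply, map_sum]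
  refine Finset.sum_eq_zero fun k _ => ?_
  rw [map_smul, map_smul, zt_zz z e he, smul_zero, smul_zero]

theorem zs_opQ (w : I → ℂ) (i : I) : zs e i ∘ₗ opQ z e w = w i • zt e i := by
  refine LinearMap.ext fun a => ?_
  rw [LinearMap.comp_apply, opQ_apply, map_sum, Finset.sum_eq_single i]
  · rw [map_smul, map_smul, zs_zz z e he, if_pos rfl, smul_eq_mul (zt e i a), mul_one]
    rfl
  · intro k _ hk
    rw [map_smul, map_smul, zs_zz z e he, if_neg hk, smul_zero, smul_zero]
  · intro h
    exact absurd (Finset.mem_univ i) h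

theorem zt_opP (w : I → ℂ) (i : I) : zt e i ∘ₗ opP z e w = w i • zs e i := by
  refine LinearMap.ext fun a => ?_
  rw [LinearMap.comp_apply, opP_apply, map_sum, Finset.sum_eq_single i]
  · rw [map_smul, map_smul, zt_zb z e he, if_pos rfl, smul_eq_mul (zs e i a), mul_one]
    rfl
  · intro k _ hk
    rw [map_smul, map_smul, zt_zb z e he, if_neg hk, smul_zero, smul_zero]
  · intro h
    exact absurd (Finset.mem_univ i) h

theorem zs_opR (w : I → ℂ) (i : I) : zs e i ∘ₗ opR z e w = w i • zs e i := by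
  refine LinearMap.ext fun a => ?_
  rw [LinearMap.comp_apply, opR_apply, map_sum, Finset.sum_eq_single i]
  · rw [map_smul, map_sub, map_smul, map_smul, zs_zz z e he, zs_zb z e he, if_pos rfl, smul_zero,
      sub_zero, smul_eq_mul (zs e i a), mul_one]
    rfl
  · intro k _ hk
    rw [map_smul, map_sub, map_smul, map_smul, zs_zz z e he, zs_zb z e he, if_neg hk, smul_zero,
      smul_zero, sub_zero, smul_zero]
  · intro h
    exact absurd (Finset.mem_univ i) h

theorem zt_opR (w : I → ℂ) (i : I) : zt e i ∘ₗ opR z e w = -(w i • zt e i) := by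
  refine LinearMap.ext fun a => ?_
  rw [LinearMap.comp_apply, opR_apply, map_sum, Finset.sum_eq_single i]
  · rw [map_smul, map_sub, map_smul, map_smul, zt_zz z e he, zt_zb z e he, if_pos rfl, smul_zero,
      zero_sub, smul_eq_mul (zt e i a), mul_one, smul_neg]
    rfl
  · intro k _ hk
    rw [map_smul, map_sub, map_smul, map_smul, zt_zz z e he, zt_zb z e he, if_neg hk, smul_zero,
      smul_zero, sub_zero, smul_zero]
  · intro h
    exact absurd (Finset.mem_univ i) h

variable (hv : ∀ v, ∑ i, z i v • e i = v)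

include hv

omit he [DecidableEq I] in
theorem hbb (a : V →ₗ[ℝ] ℂ) : ∑ p, bs e p a • bb z p = a := by
  rw [Fintype.sum_sum_type]
  refine LinearMap.ext fun v => ?_
  have h1 : a v = ∑ i, (((z i v).re : ℂ) * a (e i) + ((z i v).im : ℂ) * a (Complex.I • e i)) := by
    conv_lhs => rw [← hv v]
    rw [map_sum]
    refine Finset.sum_congr rfl fun i _ => ?_
    have h2 : z i v • e i = (z i v).re • e i + (z i v).im • (Complex.I • e i) := by
      conv_lhs => rw [← Complex.re_add_im (z i v)]
      rw [add_smul, mul_smul]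
      rfl
    rw [h2, map_add, map_smul, map_smul]
    rfl
  rw [h1, LinearMap.add_apply, LinearMap.sum_apply, LinearMap.sum_apply, ← Finset.sum_add_distrib]
  refine Finset.sum_congr rfl fun i _ => ?_
  show zs e i a * z i v + zt e i a * conj (z i v) = _
  rw [zs_apply, zt_apply]
  have h3 : conj (z i v) = ((z i v).re : ℂ) - ((z i v).im : ℂ) * Complex.I := by
    apply Complex.ext <;> simp
  have h4 : z i v = ((z i v).re : ℂ) + ((z i v).im : ℂ) * Complex.I := (Complex.re_add_im _).symm
  rw [h3]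
  conv_lhs => rw [h4]
  simp only [Complex.add_re, Complex.ofReal_re, Complex.mul_re, Complex.I_re, mul_zero,
    Complex.ofReal_im, Complex.I_im, mul_one, sub_self, add_zero, Complex.add_im, Complex.mul_im,
    zero_add]
  linear_combination (-((z i v).im : ℂ) * a (Complex.I • e i)) * Complex.I_mul_I

omit he [DecidableEq I] in
theorem ext_b {S T : Module.End ℂ (V →ₗ[ℝ] ℂ)} (h1 : ∀ k, S (zz z k) = T (zz z k))
    (h2 : ∀ k, S (zb z k) = T (zb z k)) : S = T := by
  refine LinearMap.ext fun a => ?_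
  conv_lhs => rw [← hbb z e hv a]
  conv_rhs => rw [← hbb z e hv a]
  rw [map_sum, map_sum]
  refine Finset.sum_congr rfl fun p _ => ?_
  rw [map_smul, map_smul]
  congr 1
  cases p with
  | inl i => exact h1 i
  | inr i => exact h2 i

theorem br_RR (w w' : I → ℂ) : opR z e w * opR z e w' - opR z e w' * opR z e w = 0 := by
  refine ext_b z e hv (fun k => ?_) fun k => ?_
  · show opR z e w (opR z e w' (zz z k)) - opR z e w' (opR z e w (zz z k)) = 0
    rw [opR_zz z e he, opR_zz z e he, map_smul, map_smul, opR_zz z e he, opR_zz z e he,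
      smul_smul, smul_smul, mul_comm, sub_self]
  · show opR z e w (opR z e w' (zb z k)) - opR z e w' (opR z e w (zb z k)) = 0
    rw [opR_zb z e he, opR_zb z e he, map_neg, map_neg, map_smul, map_smul, opR_zb z e he,
      opR_zb z e he, smul_neg, smul_neg, smul_smul, smul_smul, mul_comm, sub_self]

theorem br_RP (w w' : I → ℂ) :
    opR z e w * opP z e w' - opP z e w' * opR z e w = opP z e ((-2 : ℂ) • (w * w')) := by
  refine ext_b z e hv (fun k => ?_) fun k => ?_
  · show opR z e w (opP z e w' (zz z k)) - opP z e w' (opR z e w (zz z k)) = _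
    rw [opP_zz z e he, map_smul, opR_zb z e he, opR_zz z e he, map_smul, opP_zz z e he,
      opP_zz z e he, smul_neg, smul_smul, smul_smul, ← neg_add', ← add_smul, ← neg_smul]
    congr 1
    rw [Pi.smul_apply, Pi.mul_apply, smul_eq_mul]
    ring
  · show opR z e w (opP z e w' (zb z k)) - opP z e w' (opR z e w (zb z k)) = _
    rw [opP_zb z e he, map_zero, opR_zb z e he, map_neg, map_smul, opP_zb z e he, opP_zb z e he,
      smul_zero, neg_zero, sub_zero]

theorem br_RQ (w w' : I → ℂ) :
    opR z e w * opQ z e w' - opQ z e w' * opR z e w = opQ z e ((2 : ℂ) • (w * w')) := by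
  refine ext_b z e hv (fun k => ?_) fun k => ?_
  · show opR z e w (opQ z e w' (zz z k)) - opQ z e w' (opR z e w (zz z k)) = _
    rw [opQ_zz z e he, map_zero, opR_zz z e he, map_smul, opQ_zz z e he, opQ_zz z e he,
      smul_zero, sub_zero]
  · show opR z e w (opQ z e w' (zb z k)) - opQ z e w' (opR z e w (zb z k)) = _
    rw [opQ_zb z e he, map_smul, opR_zb z e he, opR_zz z e he, map_neg, map_smul, opQ_zb z e he,
      opQ_zb z e he, sub_neg_eq_add, smul_smul, smul_smul, ← add_smul]
    congr 1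
    rw [Pi.smul_apply, Pi.mul_apply, smul_eq_mul]
    ring

theorem br_PQ (w w' : I → ℂ) :
    opP z e w * opQ z e w' - opQ z e w' * opP z e w = opR z e (-(w * w')) := by
  refine ext_b z e hv (fun k => ?_) fun k => ?_
  · show opP z e w (opQ z e w' (zz z k)) - opQ z e w' (opP z e w (zz z k)) = _
    rw [opQ_zz z e he, map_zero, opP_zz z e he, map_smul, opQ_zb z e he, opR_zz z e he,
      smul_smul, zero_sub, ← neg_smul]
    rfl
  · show opP z e w (opQ z e w' (zb z k)) - opQ z e w' (opP z e w (zb z k)) = _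
    rw [opQ_zb z e he, map_smul, opP_zb z e he, map_zero, opP_zz z e he, opR_zb z e he,
      smul_smul, sub_zero, ← neg_smul]
    congr 1
    rw [Pi.neg_apply, Pi.mul_apply]
    ring

theorem pb_eq (X : Module.End ℝ V) (al be : I → ℂ) (h0 : ∀ i, al i + conj (al i) = 0)
    (h : ∀ i v, z i (X v) = al i * z i v + be i * conj (z i v)) :
    pb X = opR z e al + opP z e be + opQ z e (fun i => conj (be i)) := by
  refine ext_b z e hv (fun k => ?_) fun k => ?_
  · rw [LinearMap.add_apply, LinearMap.add_apply, opR_zz z e he, opP_zz z e he, opQ_zz z e he,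
      add_zero]
    exact LinearMap.ext fun v => h k v
  · rw [LinearMap.add_apply, LinearMap.add_apply, opR_zb z e he, opP_zb z e he, opQ_zb z e he,
      add_zero]
    refine LinearMap.ext fun v => ?_
    show conj (z k (X v)) = -(al k * conj (z k v)) + conj (be k) * z k v
    rw [h k v, map_add, map_mul, map_mul, Complex.conj_conj, eq_neg_of_add_eq_zero_right (h0 k)]
    ring

end bas

end W
end HC
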