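import Pool.Agent.Lib.HC.W.Def

/-!
# PROJECT HC+, part 3: LEMMA C (helper39)

`HC.W.pC : S_C`.  The algebra `A = {a | a P ⊆ P, a Q ⊆ Q}` contains the indicators of the classes
of the relation `a i = a k` for all `a ∈ A` (Lagrange interpolation, `ind_mem`).
-/

set_option autoImplicit false

noncomputable section

namespace HC
namespace W
namespace C

variable {I : Type} [Fintype I]

/-- A finite set of coordinates which do not vanish on a subspace do not vanish at one element. -/
theorem exists_ne (P : Submodule ℂ (I → ℂ)) (hP : ∀ i, ∃ w ∈ P, w i ≠ 0) :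
    ∃ w ∈ P, ∀ i, w i ≠ 0 := by
  classical
  have key : ∀ S : Finset I, ∃ w ∈ P, ∀ i ∈ S, w i ≠ 0 := by
    intro S
    induction S using Finset.induction_on with
    | empty => exact ⟨0, P.zero_mem, fun i hi => absurd hi (Finset.notMem_empty i)⟩
    | insert j S _ ih =>
      obtain ⟨w, hw, hw0⟩ := ih
      obtain ⟨w', hw', hj⟩ := hP j
      obtain ⟨t, ht⟩ := Infinite.exists_notMem_finset
        ((insert j S).image (fun i => -(w i) / w' i))
      refine ⟨w + t • w', P.add_mem hw (P.smul_mem t hw'), ?_⟩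
      intro i hi h0
      have h1 : w i + t * w' i = 0 := h0
      by_cases h2 : w' i = 0
      · rw [h2, mul_zero, add_zero] at h1
        rcases Finset.mem_insert.1 hi with h3 | h3
        · rw [h3] at h2
          exact hj h2
        · exact hw0 i h3 h1
      · apply ht
        refine Finset.mem_image.2 ⟨i, hi, ?_⟩
        rw [div_eq_iff h2]
        linear_combination (-1 : ℂ) * h1
  obtain ⟨w, hw, hw0⟩ := key Finset.univ
  exact ⟨w, hw, fun i => hw0 i (Finset.mem_univ i)⟩

/-- The algebra `A`. -/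
def Al (P Q : Submodule ℂ (I → ℂ)) : Subalgebra ℂ (I → ℂ) where
  carrier := {a | (∀ w ∈ P, a * w ∈ P) ∧ ∀ w ∈ Q, a * w ∈ Q}
  mul_mem' := by
    rintro a b ⟨ha, ha'⟩ ⟨hb, hb'⟩
    refine ⟨fun w hw => ?_, fun w hw => ?_⟩
    · rw [mul_assoc]
      exact ha _ (hb w hw)
    · rw [mul_assoc]
      exact ha' _ (hb' w hw)
  add_mem' := by
    rintro a b ⟨ha, ha'⟩ ⟨hb, hb'⟩
    refine ⟨fun w hw => ?_, fun w hw => ?_⟩
    · rw [add_mul]
      exact P.add_mem (ha w hw) (hb w hw)
    · rw [add_mul]
      exact Q.add_mem (ha' w hw) (hb' w hw)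
  algebraMap_mem' := by
    intro r
    refine ⟨fun w hw => ?_, fun w hw => ?_⟩
    · rw [← Algebra.smul_def]
      exact P.smul_mem r hw
    · rw [← Algebra.smul_def]
      exact Q.smul_mem r hw

/-- **Lagrange interpolation**: for a subalgebra `A` of `ℂ^I` and `k : I` there is an element of
`A` which is `1` at `k` and `0` at all `i` separated from `k` by `A`. -/
theorem exists_ind (A : Subalgebra ℂ (I → ℂ)) (k : I) :
    ∃ e ∈ A, e k = 1 ∧ ∀ i, (∃ a ∈ A, a i ≠ a k) → e i = 0 := by
  classical
  have h1 : ∀ j : I, ∃ e ∈ A, e k = 1 ∧ ((∃ a ∈ A, a j ≠ a k) → e j = 0) := by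
    intro j
    by_cases hj : ∃ a ∈ A, a j ≠ a k
    · obtain ⟨a, ha, hne⟩ := hj
      have h2 : a k - a j ≠ 0 := fun h => hne (sub_eq_zero.1 h).symm
      refine ⟨(a k - a j)⁻¹ • (a - algebraMap ℂ (I → ℂ) (a j)),
        A.smul_mem (A.sub_mem ha (A.algebraMap_mem _)) _, ?_, fun _ => ?_⟩
      · change (a k - a j)⁻¹ * (a k - a j) = 1
        exact inv_mul_cancel₀ h2
      · change (a k - a j)⁻¹ * (a j - a j) = 0
        rw [sub_self, mul_zero]
    · exact ⟨1, A.one_mem, rfl, fun h => absurd h hj⟩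
  choose e he hek hej using h1
  refine ⟨∏ j, e j, A.prod_mem fun j _ => he j, ?_, ?_⟩
  · rw [Finset.prod_apply]
    exact Finset.prod_eq_one fun j _ => hek j
  · intro i hi
    rw [Finset.prod_apply]
    exact Finset.prod_eq_zero (Finset.mem_univ i) (hej i hi)

end C

/-- **LEMMA C**. -/
theorem pC : S_C := by
  classical
  intro I _ P Q R hPQ hRP hRQ hP hQ
  set A := C.Al P Q with hA
  have hRA : ∀ w ∈ R, w ∈ A := fun w hw => ⟨hRP w hw, hRQ w hw⟩
  let s : Setoid I :=
    { r := fun i k => ∀ a ∈ A, a i = a k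
      iseqv := ⟨fun _ _ _ => rfl, fun h a ha => (h a ha).symm,
        fun h h' a ha => (h a ha).trans (h' a ha)⟩ }
  letI hdec : DecidableEq (Quotient s) := Classical.decEq _
  have hs : ∀ i k : I, (Quotient.mk s i = Quotient.mk s k) ↔ ∀ a ∈ A, a i = a k :=
    fun i k => Quotient.eq (r := s)
  obtain ⟨lam, hlam, hlam0⟩ := C.exists_ne P hP
  obtain ⟨q, hq, hq0⟩ := C.exists_ne Q hQ
  have hlq : lam * q ∈ A := hRA _ (hPQ lam hlam q hq)
  -- the indicators of the classes
  have hind : ∀ k : I, (fun i => if Quotient.mk s i = Quotient.mk s k then (1 : ℂ) else 0) ∈ A := by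
    intro k
    obtain ⟨e, he, hek, hei⟩ := C.exists_ind A k
    have h1 : (fun i => if Quotient.mk s i = Quotient.mk s k then (1 : ℂ) else 0) = e := by
      funext i
      by_cases h : Quotient.mk s i = Quotient.mk s k
      · rw [if_pos h, (hs i k).1 h e he, hek]
      · rw [if_neg h]
        refine (hei i ?_).symm
        by_contra h2
        push Not at h2
        exact h ((hs i k).2 h2)
    rw [h1]
    exact he
  -- elements of A are functions of the class
  have hfun : ∀ w ∈ A, ∃ f : Quotient s → ℂ, ∀ i, w i = f (Quotient.mk s i) := by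
    intro w hw
    refine ⟨Quotient.lift w fun i k h => h w hw, fun i => rfl⟩
  refine ⟨Quotient s, Fintype.ofFinite _, hdec, Quotient.mk s, lam, hlam0, ?_, ?_, ?_,
    ?_, ?_⟩
  · intro k
    obtain ⟨k, rfl⟩ := Quotient.exists_rep k
    have h1 := (hind k).1 lam hlam
    have h2 : (fun i => if Quotient.mk s i = Quotient.mk s k then lam i else 0) =
        (fun i => if Quotient.mk s i = Quotient.mk s k then (1 : ℂ) else 0) * lam := by
      funext i
      rw [Pi.mul_apply]
      split_ifs
      · rw [one_mul]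
      · rw [zero_mul]
    rw [h2]
    exact h1
  · intro k
    obtain ⟨k, rfl⟩ := Quotient.exists_rep k
    have h1 := Q.smul_mem (lam k * q k)⁻¹ ((hind k).2 q hq)
    have h2 : (fun i => if Quotient.mk s i = Quotient.mk s k then (lam i)⁻¹ else 0) =
        (lam k * q k)⁻¹ •
          ((fun i => if Quotient.mk s i = Quotient.mk s k then (1 : ℂ) else 0) * q) := by
      funext i
      rw [Pi.smul_apply, Pi.mul_apply, smul_eq_mul]
      split_ifs with h
      · have h3 : lam i * q i = lam k * q k := (hs i k).1 h _ hlq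
        rw [← h3, one_mul, mul_inv, mul_assoc, inv_mul_cancel₀ (hq0 i), mul_one]
      · rw [zero_mul, mul_zero]
    rw [h2]
    exact h1
  · intro w hw
    obtain ⟨f, hf⟩ := hfun (w * q) (hRA _ (hPQ w hw q hq))
    obtain ⟨g, hg⟩ := hfun (lam * q) hlq
    refine ⟨fun k => f k / g k, fun i => ?_⟩
    have h1 : w i * q i = f (Quotient.mk s i) := hf i
    have h2 : lam i * q i = g (Quotient.mk s i) := hg i
    change w i = f (Quotient.mk s i) / g (Quotient.mk s i) * lam i
    rw [← h1, ← h2, mul_div_mul_right _ _ (hq0 i), div_mul_cancel₀ _ (hlam0 i)]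
  · intro w hw
    obtain ⟨f, hf⟩ := hfun (lam * w) (hRA _ (hPQ lam hlam w hw))
    refine ⟨f, fun i => ?_⟩
    have h1 : lam i * w i = f (Quotient.mk s i) := hf i
    rw [← h1, mul_comm (lam i), mul_assoc, mul_inv_cancel₀ (hlam0 i), mul_one]
  · intro w hw
    exact hfun w (hRA w hw)

end W
end HC
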