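import Mathlib

/-!
# PROJECT HC+, part 3: the Capelli identity (helper38)

`e a j`, `d a j`, `a = 0, 1`: operators with the canonical anticommutation relations.
-/

set_option autoImplicit false

open Finset

noncomputable section

namespace HC
namespace W

/-- Canonical anticommutation relations. -/
structure CAR {A ι : Type*} [Ring A] [DecidableEq ι] (e d : Fin 2 → ι → A) : Prop where
  ee : ∀ a b j k, e a j * e b k = -(e b k * e a j)
  dd : ∀ a b j k, d a j * d b k = -(d b k * d a j)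
  de : ∀ a b j k, d a j * e b k = (if a = b ∧ j = k then 1 else 0) - e b k * d a j

section

variable {A ι : Type*} [Ring A] [DecidableEq ι] {e d : Fin 2 → ι → A}

/-- `M_ab = ∑_(j ∈ s) d_a j e_b j`. -/
def MM (e d : Fin 2 → ι → A) (s : Finset ι) (a b : Fin 2) : A := ∑ j ∈ s, d a j * e b j

theorem MM_e (h : CAR e d) (s : Finset ι) (a b c : Fin 2) {k : ι} (hk : k ∈ s) :
    MM e d s a b * e c k = e c k * MM e d s a b - (if a = c then e b k else 0) := by
  unfold MM
  rw [sum_mul, mul_sum]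
  have h1 : ∀ j, d a j * e b j * e c k =
      e c k * (d a j * e b j) - (if a = c ∧ j = k then e b j else 0) := by
    intro j
    have h2 : d a j * e b j * e c k = -(d a j * e c k * e b j) := by
      rw [mul_assoc, h.ee b c j k, mul_neg, ← mul_assoc]
    rw [h2, h.de a c j k, sub_mul]
    split_ifs with h3
    · rw [one_mul, mul_assoc]
      abel
    · rw [zero_mul, mul_assoc]
      abel
  rw [sum_congr rfl fun j _ => h1 j, sum_sub_distrib]
  congr 1
  by_cases hac : a = c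
  · simp only [hac, true_and, if_true]
    rw [sum_ite_eq' s k, if_pos hk]
  · simp [hac]

theorem MM_d (h : CAR e d) (s : Finset ι) (a b c : Fin 2) {k : ι} (hk : k ∈ s) :
    MM e d s a b * d c k = d c k * MM e d s a b + (if b = c then d a k else 0) := by
  unfold MM
  rw [sum_mul, mul_sum]
  have h1 : ∀ j, d a j * e b j * d c k =
      d c k * (d a j * e b j) + (if b = c ∧ j = k then d a j else 0) := by
    intro j
    have h3 : e b j * d c k = (if c = b ∧ k = j then 1 else 0) - d c k * e b j := by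
      rw [h.de c b k j]
      abel
    have h2 : d c k * (d a j * e b j) = -(d a j * (d c k * e b j)) := by
      rw [← mul_assoc, h.dd c a k j, neg_mul, mul_assoc]
    rw [h2, mul_assoc, h3, mul_sub]
    by_cases h4 : b = c ∧ j = k
    · rw [if_pos h4, if_pos ⟨h4.1.symm, h4.2.symm⟩, mul_one]
      abel
    · rw [if_neg h4, if_neg (fun h5 => h4 ⟨h5.1.symm, h5.2.symm⟩), mul_zero]
      abel
  rw [sum_congr rfl fun j _ => h1 j, sum_add_distrib]
  congr 1
  by_cases hbc : b = c
  · simp only [hbc, true_and, if_true]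
    rw [sum_ite_eq' s k, if_pos hk]
  · simp [hbc]

/-- One of the four double sums. -/
theorem dbl (h : CAR e d) (s : Finset ι) (a b a' b' : Fin 2) :
    ∑ j ∈ s, ∑ k ∈ s, (d a k * d b j) * (e a' j * e b' k) =
      MM e d s a b' * MM e d s b a' - (if b = b' then MM e d s a a' else 0) := by
  rw [sum_comm]
  have h1 : ∀ k ∈ s, ∑ j ∈ s, (d a k * d b j) * (e a' j * e b' k) =
      d a k * e b' k * MM e d s b a' - (if b = b' then d a k * e a' k else 0) := by
    intro k hk
    have h2 : ∑ j ∈ s, (d a k * d b j) * (e a' j * e b' k) =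
        d a k * (MM e d s b a' * e b' k) := by
      unfold MM
      rw [sum_mul, mul_sum]
      refine sum_congr rfl fun j _ => ?_
      simp only [mul_assoc]
    rw [h2, MM_e h s b a' b' hk, mul_sub, mul_assoc]
    congr 1
    split_ifs
    · rfl
    · rw [mul_zero]
  rw [sum_congr rfl h1, sum_sub_distrib, ← sum_mul]
  congr 1
  split_ifs
  · rfl
  · simp

/-- The Capelli operator. -/
theorem capelli_op (h : CAR e d) (s : Finset ι) :
    ∑ j ∈ s, ∑ k ∈ s, (d 1 k * d 0 j - d 0 k * d 1 j) * (e 0 j * e 1 k - e 1 j * e 0 k) =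
      MM e d s 1 1 * MM e d s 0 0 + MM e d s 0 0 * MM e d s 1 1 - MM e d s 1 0 * MM e d s 0 1 -
        MM e d s 0 1 * MM e d s 1 0 + MM e d s 0 0 + MM e d s 1 1 := by
  have h1 : ∀ j k, (d 1 k * d 0 j - d 0 k * d 1 j) * (e 0 j * e 1 k - e 1 j * e 0 k) =
      (d 1 k * d 0 j) * (e 0 j * e 1 k) - (d 1 k * d 0 j) * (e 1 j * e 0 k) -
        (d 0 k * d 1 j) * (e 0 j * e 1 k) + (d 0 k * d 1 j) * (e 1 j * e 0 k) := by
    intro j k
    rw [sub_mul, mul_sub, mul_sub]
    abel
  simp only [h1, sum_add_distrib, sum_sub_distrib]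
  rw [dbl h s 1 0 0 1, dbl h s 1 0 1 0, dbl h s 0 1 0 1, dbl h s 0 1 1 0]
  simp only [zero_ne_one, one_ne_zero, if_false, if_true]
  abel

/-- `[M_01, M_10] = M_00 - M_11`. -/
theorem MM_comm (h : CAR e d) (s : Finset ι) :
    MM e d s 0 1 * MM e d s 1 0 = MM e d s 1 0 * MM e d s 0 1 + MM e d s 0 0 - MM e d s 1 1 := by
  have h1 : MM e d s 0 1 * MM e d s 1 0 = ∑ k ∈ s, MM e d s 0 1 * (d 1 k * e 0 k) := by
    conv_lhs => rw [MM.eq_1 e d s 1 0, mul_sum]
  have h2 : ∀ k ∈ s, MM e d s 0 1 * (d 1 k * e 0 k) =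
      d 1 k * e 0 k * MM e d s 0 1 + d 0 k * e 0 k - d 1 k * e 1 k := by
    intro k hk
    rw [← mul_assoc, MM_d h s 0 1 1 hk, if_pos rfl, add_mul, mul_assoc, MM_e h s 0 1 0 hk,
      if_pos rfl, mul_sub, mul_assoc]
    abel
  rw [h1, sum_congr rfl h2, sum_sub_distrib, sum_add_distrib, ← sum_mul]
  rfl

end

/-- **The Capelli identity.** -/
theorem capelli {V ι : Type*} [AddCommGroup V] [Module ℂ V] [DecidableEq ι]
    {e d : Fin 2 → ι → Module.End ℂ V} (h : CAR e d) (s : Finset ι) (c : V)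
    (hU : (∑ j ∈ s, d 0 j * e 1 j) c = 0) (hW : (∑ j ∈ s, d 1 j * e 0 j) c = 0) :
    (2 : ℂ) • (∑ j ∈ s, ∑ k ∈ s,
      (d 1 k * d 0 j - d 0 k * d 1 j) * (e 0 j * e 1 k - e 1 j * e 0 k)) c =
      (∑ j ∈ s, (d 0 j * e 0 j + d 1 j * e 1 j)) ((∑ j ∈ s, (d 0 j * e 0 j + d 1 j * e 1 j)) c) +
        (2 : ℂ) • (∑ j ∈ s, (d 0 j * e 0 j + d 1 j * e 1 j)) c := by
  have hN : ∑ j ∈ s, (d 0 j * e 0 j + d 1 j * e 1 j) = MM e d s 0 0 + MM e d s 1 1 :=
    sum_add_distrib
  have hU' : MM e d s 0 1 c = 0 := hU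
  have hW' : MM e d s 1 0 c = 0 := hW
  have h0 := congrArg (fun X : Module.End ℂ V => X c) (MM_comm h s)
  simp only [Module.End.mul_apply, LinearMap.sub_apply, LinearMap.add_apply, hU', hW', map_zero,
    zero_add] at h0
  have h1 : MM e d s 0 0 c = MM e d s 1 1 c := (sub_eq_zero.1 h0.symm)
  rw [hN, capelli_op h s]
  simp only [Module.End.mul_apply, LinearMap.sub_apply, LinearMap.add_apply, hU', hW', map_zero,
    sub_zero, h1, map_add]
  module

/-- Commutation with `e 0 j * e 1 k - e 1 j * e 0 k`. -/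
theorem capelli_comm {A ι : Type*} [Ring A] [Algebra ℂ A] {e : Fin 2 → ι → A} (L : A)
    (x y y' : ℂ) (j k : ι)
    (h0j : L * e 0 j = e 0 j * L + x • e 0 j + y • e 1 j)
    (h0k : L * e 0 k = e 0 k * L + x • e 0 k + y • e 1 k)
    (h1j : L * e 1 j = e 1 j * L - x • e 1 j + y' • e 0 j)
    (h1k : L * e 1 k = e 1 k * L - x • e 1 k + y' • e 0 k) :
    L * (e 0 j * e 1 k - e 1 j * e 0 k) = (e 0 j * e 1 k - e 1 j * e 0 k) * L := by
  have a1 : L * (e 0 j * e 1 k) = e 0 j * e 1 k * L + y' • (e 0 j * e 0 k) + y • (e 1 j * e 1 k) := by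
    rw [← mul_assoc, h0j, add_mul, add_mul, mul_assoc, h1k]
    simp only [mul_add, mul_sub, smul_mul_assoc, mul_smul_comm, mul_assoc]
    abel
  have a2 : L * (e 1 j * e 0 k) = e 1 j * e 0 k * L + y' • (e 0 j * e 0 k) + y • (e 1 j * e 1 k) := by
    rw [← mul_assoc, h1j, add_mul, sub_mul, mul_assoc, h0k]
    simp only [mul_add, smul_mul_assoc, mul_smul_comm, mul_assoc]
    abel
  rw [mul_sub, a1, a2, sub_mul]
  abel

end W
end HC
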