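import Pool.Agent.Lib.HC.W.Def
import Pool.Agent.Lib.HC.W.CapI

/-!
# PROJECT HC+, part 3: CAP-INV (helper38)
-/

set_option autoImplicit false

noncomputable section

namespace HC
namespace W

/-- **CAP-INV**. -/
theorem pCapInv : S_CapInv := fun _ D hD hJ _ p q hk _ _ hc => cap_inv D hD hJ p q hk hc

end W
end HC
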