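import Pool.Agent.Lib.HC.W.Def
set_option autoImplicit false
noncomputable section
namespace HC
namespace W
/-- Homology is finite dimensional. -/
theorem fin_Hlg (B : AV) (m : ℕ) : Module.Finite ℂ (Hlg B m) := by
  have h1 : Module.Finite ℂ (MultilinearMap ℂ (fun _ : Fin m => B.V →ₗ[ℝ] ℂ) ℂ) := inferInstance
  exact Module.Finite.of_injective
    (AlternatingMap.toMultilinearMapLM (R := ℂ) (S := ℂ) (M := B.V →ₗ[ℝ] ℂ) (N := ℂ) (ι := Fin m))
    AlternatingMap.coe_multilinearMap_injective
end W
end HC
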