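import Pool.Agent.Lib.HC.W.Bas
import Pool.Agent.Lib.HC.W.C

/-!
# PROJECT HC+, part 3, THEOREM W: the complex Lie algebra (helper1)

`hh D`: the `ℂ`-span of the operators `a ↦ a ∘ X` (`X ∈ D`) on `M = Hom_ℝ(V, ℂ)`.
`exists_str`: its structure.
-/

set_option autoImplicit false

noncomputable section

namespace HC
namespace W

open ComplexConjugate

section lie

variable {V : Type} [AddCommGroup V] [Module ℂ V] {I : Type} [Fintype I] [DecidableEq I]

variable (V) in
/-- The multiplication by `i`. -/
def mI : Module.End ℝ V := (Complex.I • (LinearMap.id : V →ₗ[ℂ] V)).restrictScalars ℝ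

/-- The complex Lie algebra of operators on the real functionals. -/
def hh (D : Set (Module.End ℝ V)) : Submodule ℂ (Module.End ℂ (V →ₗ[ℝ] ℂ)) :=
  Submodule.span ℂ (pb '' D)

/-- The hypotheses of THEOREM W, with the dual vectors of the coordinates. -/
structure Hyp (z : I → (V →ₗ[ℂ] ℂ)) (e : I → V) (D : Set (Module.End ℝ V)) : Prop where
  he : ∀ i k, z i (e k) = if i = k then 1 else 0
  hv : ∀ v, ∑ i, z i v • e i = v
  br : ∀ X ∈ D, ∀ Y ∈ D, X * Y - Y * X ∈ D
  J : mI V ∈ Submodule.span ℝ D
  act : ∀ X ∈ D, ∀ i, ∃ al be : ℂ, al + conj al = 0 ∧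
    ∀ v, z i (X v) = al * z i v + be * conj (z i v)
  nl : ∀ i, ∃ X ∈ D, ∃ v, z i (X (Complex.I • v)) ≠ Complex.I * z i (X v)

theorem pb_mem {D : Set (Module.End ℝ V)} {X : Module.End ℝ V} (hX : X ∈ D) : pb X ∈ hh D :=
  Submodule.subset_span ⟨X, hX, rfl⟩

theorem hh_br {D : Set (Module.End ℝ V)} (hbr : ∀ X ∈ D, ∀ Y ∈ D, X * Y - Y * X ∈ D)
    {S T : Module.End ℂ (V →ₗ[ℝ] ℂ)} (hS : S ∈ hh D) (hT : T ∈ hh D) : S * T - T * S ∈ hh D := by
  unfold hh at hS
  induction hS using Submodule.span_induction with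
  | mem S hS =>
    obtain ⟨X, hX, rfl⟩ := hS
    unfold hh at hT
    induction hT using Submodule.span_induction with
    | mem T hT =>
      obtain ⟨Y, hY, rfl⟩ := hT
      have h : pb X * pb Y - pb Y * pb X = pb (Y * X - X * Y) := by
        rw [map_sub, pb_mul, pb_mul]
      rw [h]
      exact pb_mem (hbr Y hY X hX)
    | zero => rw [mul_zero, zero_mul, sub_zero]; exact Submodule.zero_mem _
    | add T T' _ _ h h' =>
      have h2 : pb X * (T + T') - (T + T') * pb X = (pb X * T - T * pb X) +
          (pb X * T' - T' * pb X) := by noncomm_ring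
      rw [h2]
      exact Submodule.add_mem _ h h'
    | smul a T _ h =>
      have h2 : pb X * (a • T) - (a • T) * pb X = a • (pb X * T - T * pb X) := by
        rw [mul_smul_comm, smul_mul_assoc, smul_sub]
      rw [h2]
      exact Submodule.smul_mem _ _ h
  | zero => rw [mul_zero, zero_mul, sub_zero]; exact Submodule.zero_mem _
  | add S S' _ _ h h' =>
    have h2 : (S + S') * T - T * (S + S') = (S * T - T * S) + (S' * T - T * S') := by noncomm_ring
    rw [h2]
    exact Submodule.add_mem _ h h'
  | smul a S _ h =>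
    have h2 : (a • S) * T - T * (a • S) = a • (S * T - T * S) := by
      rw [mul_smul_comm, smul_mul_assoc, smul_sub]
    rw [h2]
    exact Submodule.smul_mem _ _ h

theorem pb_span {D : Set (Module.End ℝ V)} {X : Module.End ℝ V} (hX : X ∈ Submodule.span ℝ D) :
    pb X ∈ hh D := by
  have h : Submodule.span ℝ D ≤ ((hh D).restrictScalars ℝ).comap pb :=
    Submodule.span_le.2 fun X hX => pb_mem hX
  exact h hX

variable {z : I → (V →ₗ[ℂ] ℂ)} {e : I → V} {D : Set (Module.End ℝ V)}

theorem pb_J (he : ∀ i k, z i (e k) = if i = k then 1 else 0) (hv : ∀ v, ∑ i, z i v • e i = v) :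
    pb (mI V) = opR z e (fun _ => Complex.I) := by
  refine ext_b z e hv (fun k => ?_) fun k => ?_
  · rw [opR_zz z e he]
    refine LinearMap.ext fun v => ?_
    show z k (Complex.I • v) = Complex.I * z k v
    rw [map_smul, smul_eq_mul]
  · rw [opR_zb z e he]
    refine LinearMap.ext fun v => ?_
    show conj (z k (Complex.I • v)) = -(Complex.I * conj (z k v))
    rw [map_smul, smul_eq_mul, map_mul, Complex.conj_I, neg_mul]

theorem opR_I_mem (H : Hyp z e D) : opR z e (fun _ => Complex.I) ∈ hh D := by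
  rw [← pb_J H.he H.hv]
  exact pb_span H.J

/-- The components of an element of the Lie algebra. -/
theorem comp_mem (H : Hyp z e D) {a b c : I → ℂ} (h : opR z e a + opP z e b + opQ z e c ∈ hh D) :
    opR z e a ∈ hh D ∧ opP z e b ∈ hh D ∧ opQ z e c ∈ hh D := by
  have hI := opR_I_mem H
  have key : ∀ a b c : I → ℂ, opR z e (fun _ => Complex.I) * (opR z e a + opP z e b + opQ z e c) -
      (opR z e a + opP z e b + opQ z e c) * opR z e (fun _ => Complex.I) =
      (-(2 * Complex.I)) • opP z e b + (2 * Complex.I) • opQ z e c := by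
    intro a b c
    have h1 := br_RR z e H.he H.hv (fun _ => Complex.I) a
    have h2 := br_RP z e H.he H.hv (fun _ => Complex.I) b
    have h3 := br_RQ z e H.he H.hv (fun _ => Complex.I) c
    have e2 : (-2 : ℂ) • ((fun _ => Complex.I) * b) = (-(2 * Complex.I)) • b := by
      funext i
      show -2 * (Complex.I * b i) = -(2 * Complex.I) * b i
      ring
    have e3 : (2 : ℂ) • ((fun _ => Complex.I) * c) = (2 * Complex.I) • c := by
      funext i
      show 2 * (Complex.I * c i) = (2 * Complex.I) * c i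
      ring
    rw [e2, map_smul] at h2
    rw [e3, map_smul] at h3
    rw [← h2, ← h3, mul_add, mul_add, add_mul, add_mul]
    have h4 : opR z e (fun _ => Complex.I) * opR z e a =
        opR z e a * opR z e (fun _ => Complex.I) := sub_eq_zero.1 h1
    rw [h4]
    abel
  have k1 := hh_br H.br hI h
  rw [key] at k1
  have k2 := hh_br H.br hI k1
  have e0 : (-(2 * Complex.I)) • opP z e b + (2 * Complex.I) • opQ z e c =
      opR z e 0 + opP z e ((-(2 * Complex.I)) • b) + opQ z e ((2 * Complex.I) • c) := by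
    rw [map_zero, zero_add, map_smul, map_smul]
  rw [e0, key, map_smul, map_smul, smul_smul, smul_smul] at k2
  have hP : opP z e b ∈ hh D := by
    have h5 : opP z e b = (-(1 / 8) : ℂ) • ((-(2 * Complex.I) * -(2 * Complex.I)) • opP z e b +
        (2 * Complex.I * (2 * Complex.I)) • opQ z e c) + (Complex.I / 4) •
        ((-(2 * Complex.I)) • opP z e b + (2 * Complex.I) • opQ z e c) := by
      rw [smul_add, smul_add, smul_smul, smul_smul, smul_smul, smul_smul]
      have x1 : (-(1 / 8) : ℂ) * (-(2 * Complex.I) * -(2 * Complex.I)) = 1 / 2 := by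
        linear_combination (-(1 / 2) : ℂ) * Complex.I_mul_I
      have x2 : (-(1 / 8) : ℂ) * (2 * Complex.I * (2 * Complex.I)) = 1 / 2 := by
        linear_combination (-(1 / 2) : ℂ) * Complex.I_mul_I
      have x3 : Complex.I / 4 * -(2 * Complex.I) = 1 / 2 := by
        linear_combination (-(1 / 2) : ℂ) * Complex.I_mul_I
      have x4 : Complex.I / 4 * (2 * Complex.I) = -(1 / 2) := by
        linear_combination ((1 / 2) : ℂ) * Complex.I_mul_I
      rw [x1, x2, x3, x4]
      module
    rw [h5]
    exact Submodule.add_mem _ (Submodule.smul_mem _ _ k2) (Submodule.smul_mem _ _ k1)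
  have hQ : opQ z e c ∈ hh D := by
    have h5 : opQ z e c = (-(Complex.I / 2)) • ((-(2 * Complex.I)) • opP z e b +
        (2 * Complex.I) • opQ z e c) + opP z e b := by
      rw [smul_add, smul_smul, smul_smul]
      have x1 : -(Complex.I / 2) * -(2 * Complex.I) = -1 := by
        linear_combination Complex.I_mul_I
      have x2 : -(Complex.I / 2) * (2 * Complex.I) = 1 := by
        linear_combination -Complex.I_mul_I
      rw [x1, x2]
      module
    rw [h5]
    exact Submodule.add_mem _ (Submodule.smul_mem _ _ k1) hP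
  refine ⟨?_, hP, hQ⟩
  have h6 : opR z e a = (opR z e a + opP z e b + opQ z e c) - opP z e b - opQ z e c := by abel
  rw [h6]
  exact Submodule.sub_mem _ (Submodule.sub_mem _ h hP) hQ

/-- **The structure of the Lie algebra.** -/
theorem exists_str (H : Hyp z e D) :
    ∃ (K : Type) (_ : Fintype K) (_ : DecidableEq K) (cl : I → K) (lam : I → ℂ),
      (∀ i, lam i ≠ 0) ∧ (∀ k, opP z e (fun i => if cl i = k then lam i else 0) ∈ hh D) ∧
      (∀ k, opQ z e (fun i => if cl i = k then (lam i)⁻¹ else 0) ∈ hh D) ∧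
      ∀ X ∈ D, ∃ f g h : K → ℂ,
        (∀ i v, z i (X v) = f (cl i) * z i v + g (cl i) * lam i * conj (z i v)) ∧
        (∀ i v, conj (z i (X v)) = -f (cl i) * conj (z i v) + h (cl i) * (lam i)⁻¹ * z i v) ∧
        pb X = opR z e (fun i => f (cl i)) + opP z e (fun i => g (cl i) * lam i) +
          opQ z e (fun i => h (cl i) * (lam i)⁻¹) := by
  have hX : ∀ X ∈ D, ∃ al be : I → ℂ, (∀ i, al i + conj (al i) = 0) ∧
      (∀ i v, z i (X v) = al i * z i v + be i * conj (z i v)) ∧
      pb X = opR z e al + opP z e be + opQ z e (fun i => conj (be i)) := by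
    intro X hX
    choose al be h0 h using H.act X hX
    exact ⟨al, be, h0, h, pb_eq z e H.he H.hv X al be h0 h⟩
  obtain ⟨K, iK, dK, cl, lam, hlam, hP, hQ, wP, wQ, wR⟩ := pC I ((hh D).comap (opP z e))
    ((hh D).comap (opQ z e)) ((hh D).comap (opR z e))
    (by
      intro w hw w' hw'
      have h := hh_br H.br (Submodule.mem_comap.1 hw) (Submodule.mem_comap.1 hw')
      rw [br_PQ z e H.he H.hv, map_neg] at h
      exact (Submodule.neg_mem_iff (hh D)).1 h)
    (by
      intro w hw w' hw'
      have h := hh_br H.br (Submodule.mem_comap.1 hw) (Submodule.mem_comap.1 hw')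
      rw [br_RP z e H.he H.hv, map_smul] at h
      exact ((hh D).smul_mem_iff (by norm_num)).1 h)
    (by
      intro w hw w' hw'
      have h := hh_br H.br (Submodule.mem_comap.1 hw) (Submodule.mem_comap.1 hw')
      rw [br_RQ z e H.he H.hv, map_smul] at h
      exact ((hh D).smul_mem_iff (by norm_num)).1 h)
    (by
      intro i
      obtain ⟨X, hXD, v, hne⟩ := H.nl i
      obtain ⟨al, be, h0, hz, hp⟩ := hX X hXD
      have h := pb_mem hXD
      rw [hp] at h
      refine ⟨be, (comp_mem H h).2.1, fun hb => hne ?_⟩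
      rw [hz, hz, hb, map_smul, smul_eq_mul]
      ring)
    (by
      intro i
      obtain ⟨X, hXD, v, hne⟩ := H.nl i
      obtain ⟨al, be, h0, hz, hp⟩ := hX X hXD
      have h := pb_mem hXD
      rw [hp] at h
      refine ⟨fun i => conj (be i), (comp_mem H h).2.2, fun hb => hne ?_⟩
      have hb' : be i = 0 := by
        have h7 := congrArg conj (show conj (be i) = 0 from hb)
        rwa [Complex.conj_conj, map_zero] at h7
      rw [hz, hz, hb', map_smul, smul_eq_mul]
      ring)
  refine ⟨K, iK, dK, cl, lam, hlam, hP, hQ, fun X hXD => ?_⟩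
  obtain ⟨al, be, h0, hz, hp⟩ := hX X hXD
  have h := pb_mem hXD
  rw [hp] at h
  obtain ⟨h1, h2, h3⟩ := comp_mem H h
  obtain ⟨f, hf⟩ := wR al h1
  obtain ⟨g, hg⟩ := wP be h2
  obtain ⟨k, hk⟩ := wQ _ h3
  refine ⟨f, g, k, fun i v => ?_, fun i v => ?_, ?_⟩
  · rw [hz, hf, hg]
  · have hk' : conj (be i) = k (cl i) * (lam i)⁻¹ := hk i
    rw [hz, map_add, map_mul, map_mul, Complex.conj_conj, hk', eq_neg_of_add_eq_zero_right (h0 i),
      hf]
  · rw [hp]
    have e1 : al = fun i => f (cl i) := funext hf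
    have e2 : be = fun i => g (cl i) * lam i := funext hg
    have e3 : (fun i => conj (be i)) = fun i => k (cl i) * (lam i)⁻¹ := funext hk
    rw [e3, e1, e2]

end lie

/-- The hypotheses of `S_W` give `Hyp`. -/
theorem exists_hyp (B : AV) {I : Type} [Fintype I] [DecidableEq I] (z : I → (B.V →ₗ[ℂ] ℂ))
    (hz : Function.Bijective fun (v : B.V) (i : I) => z i v) (D : Set (Module.End ℝ B.V))
    (hbr : ∀ X ∈ D, ∀ Y ∈ D, X * Y - Y * X ∈ D) (hJ : mulI B ∈ Submodule.span ℝ D)
    (hact : ∀ X ∈ D, ∀ i, ∃ al be : ℂ, al + conj al = 0 ∧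
      ∀ v, z i (X v) = al * z i v + be * conj (z i v))
    (hnl : ∀ i, ∃ X ∈ D, ∃ v, z i (X (Complex.I • v)) ≠ Complex.I * z i (X v)) :
    ∃ e : I → B.V, Hyp z e D := by
  choose e he using fun k : I => hz.2 (Pi.single k 1)
  have he' : ∀ i k, z i (e k) = if i = k then 1 else 0 := by
    intro i k
    have h := congrFun (he k) i
    rw [Pi.single_apply] at h
    exact h
  refine ⟨e, he', fun v => hz.1 ?_, hbr, hJ, hact, hnl⟩
  funext k
  show z k (∑ i, z i v • e i) = z k v
  rw [map_sum, Finset.sum_eq_single k]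
  · rw [map_smul, he', if_pos rfl, smul_eq_mul, mul_one]
  · intro i _ hi
    rw [map_smul, he', if_neg (Ne.symm hi), smul_zero]
  · intro h
    exact absurd (Finset.mem_univ k) h

end W
end HC
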