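import Pool.Agent.Lib.HC.W.Lie
import Pool.Agent.Lib.HC.W.Cap2

/-!
# PROJECT HC+, part 3, THEOREM W: the operators (helper1)

`ce lam 0 i = Cr (zs i)`, `ce lam 1 i = Cr (lam_i⁻¹ zt i)`, `cd lam 0 i = An (z_i)`,
`cd lam 1 i = An (lam_i conj z_i)`; `LL S` the derivation attached to `S`.
-/

set_option autoImplicit false

noncomputable section

namespace HC
namespace W

open ComplexConjugate

theorem ns {M : Type} [AddCommGroup M] [Module ℂ M] (x : ℂ) (A : Module.End ℂ (Tot M)) :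
    (-x) • A = -(x • A) := LinearMap.ext fun c => funext fun m => neg_smul x (A c m)

section dv

variable {M : Type} [AddCommGroup M] [Module ℂ M] {κ : Type} [Fintype κ] (b : κ → M)
  (bs : κ → (M →ₗ[ℂ] ℂ)) (hb : ∀ a, ∑ p, bs p a • b p = a)

include hb

theorem Dv_An (X : M →ₗ[ℂ] M) (a : M) : Dv b bs X * An a = An a * Dv b bs X - An (X a) := by
  have h2 : An (X a) = ∑ p, bs p (X a) • An (b p) := by
    have h : AnL (X a) = ∑ p, bs p (X a) • An (b p) := by
      conv_lhs => rw [← hb (X a)]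
      rw [map_sum]
      refine Finset.sum_congr rfl fun p _ => ?_
      rw [map_smul]
      rfl
    exact h
  rw [h2]
  unfold Dv
  rw [Finset.sum_mul, Finset.mul_sum, ← Finset.sum_sub_distrib]
  refine Finset.sum_congr rfl fun p _ => ?_
  have e1 : An (b p) * An a = -(An a * An (b p)) := An_An _ _
  have e2 : An a * Cr (bs p ∘ₗ X) = bs p (X a) • 1 - Cr (bs p ∘ₗ X) * An a := An_Cr _ _
  calc Cr (bs p ∘ₗ X) * An (b p) * An a = Cr (bs p ∘ₗ X) * (An (b p) * An a) := mul_assoc _ _ _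
    _ = -((Cr (bs p ∘ₗ X) * An a) * An (b p)) := by
        rw [e1]
        exact LinearMap.ext fun c => map_neg (Cr (bs p ∘ₗ X)) (An a (An (b p) c))
    _ = -((bs p (X a) • 1 - An a * Cr (bs p ∘ₗ X)) * An (b p)) := by rw [e2, sub_sub_cancel]
    _ = _ := by
      rw [sub_mul, smul_mul_assoc, one_mul, neg_sub, mul_assoc]

end dv

section ops

variable {V : Type} [AddCommGroup V] [Module ℂ V] {I : Type} [Fintype I] [DecidableEq I]
  (z : I → (V →ₗ[ℂ] ℂ)) (e : I → V) (lam : I → ℂ)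

/-- The functionals. -/
def fu : Fin 2 → I → ((V →ₗ[ℝ] ℂ) →ₗ[ℂ] ℂ) := fun a i => if a = 0 then zs e i else (lam i)⁻¹ • zt e i

/-- The vectors. -/
def ve : Fin 2 → I → (V →ₗ[ℝ] ℂ) := fun a i => if a = 0 then zz z i else lam i • zb z i

/-- The creation operators. -/
def ce (a : Fin 2) (i : I) : Module.End ℂ (Tot (V →ₗ[ℝ] ℂ)) := Cr (fu e lam a i)

/-- The annihilation operators. -/
def cd (a : Fin 2) (i : I) : Module.End ℂ (Tot (V →ₗ[ℝ] ℂ)) := An (ve z lam a i)

/-- The derivation attached to `S`. -/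
def LL (S : Module.End ℂ (V →ₗ[ℝ] ℂ)) : Module.End ℂ (Tot (V →ₗ[ℝ] ℂ)) := Dv (bb z) (bs e) S

variable (he : ∀ i k, z i (e k) = if i = k then 1 else 0) (hl : ∀ i, lam i ≠ 0)

include he hl

omit [Fintype I] in
theorem fu_ve (a b : Fin 2) (j k : I) :
    fu e lam b k (ve z lam a j) = if a = b ∧ j = k then 1 else 0 := by
  unfold fu ve
  fin_cases a <;> fin_cases b
  · simp [zs_zz z e he]
  · simp [zt_zz z e he]
  · simp [zs_zb z e he]
  · by_cases h : j = k
    · subst h
      simp [zt_zb z e he, hl]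
    · simp [zt_zb z e he, h]

omit [Fintype I] in
theorem car : CAR (ce e lam) (cd z lam) where
  ee a b j k := Cr_Cr _ _
  dd a b j k := An_An _ _
  de a b j k := by
    have h := An_Cr (ve z lam a j) (fu e lam b k)
    rw [fu_ve z e lam he hl] at h
    refine h.trans ?_
    split_ifs
    · rw [one_smul]
      rfl
    · rw [zero_smul]
      rfl

omit hl in
theorem LL_opQ (s : Finset I) :
    LL z e (opQ z e (fun i => if i ∈ s then (lam i)⁻¹ else 0)) = ∑ j ∈ s, ce e lam 1 j * cd z lam 0 j := by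
  unfold LL Dv
  rw [Fintype.sum_sum_type]
  have h2 : ∑ i, Cr (bs e (Sum.inr i) ∘ₗ opQ z e (fun i => if i ∈ s then (lam i)⁻¹ else 0)) *
      An (bb z (Sum.inr i)) = 0 := by
    refine Finset.sum_eq_zero fun i _ => ?_
    have h3 : bs e (Sum.inr i) ∘ₗ opQ z e (fun i => if i ∈ s then (lam i)⁻¹ else 0) = 0 :=
      zt_opQ z e he _ i
    rw [h3]
    have h4 : CrL (M := V →ₗ[ℝ] ℂ) 0 = 0 := map_zero _
    have h5 : Cr (M := V →ₗ[ℝ] ℂ) 0 = 0 := h4
    rw [h5, zero_mul]
  rw [h2, add_zero, ← Finset.sum_filter_add_sum_filter_not Finset.univ (· ∈ s)]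
  have h6 : ∑ i ∈ Finset.univ.filter (fun i => ¬ i ∈ s),
      Cr (bs e (Sum.inl i) ∘ₗ opQ z e (fun i => if i ∈ s then (lam i)⁻¹ else 0)) *
      An (bb z (Sum.inl i)) = 0 := by
    refine Finset.sum_eq_zero fun i hi => ?_
    have h3 : bs e (Sum.inl i) ∘ₗ opQ z e (fun i => if i ∈ s then (lam i)⁻¹ else 0) =
        (if i ∈ s then (lam i)⁻¹ else 0) • zt e i := zs_opQ z e he _ i
    rw [h3, if_neg (Finset.mem_filter.1 hi).2, zero_smul]
    have h4 : CrL (M := V →ₗ[ℝ] ℂ) 0 = 0 := map_zero _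
    have h5 : Cr (M := V →ₗ[ℝ] ℂ) 0 = 0 := h4
    rw [h5, zero_mul]
  rw [h6, add_zero, Finset.filter_mem_eq_inter, Finset.univ_inter]
  refine Finset.sum_congr rfl fun i hi => ?_
  have h3 : bs e (Sum.inl i) ∘ₗ opQ z e (fun i => if i ∈ s then (lam i)⁻¹ else 0) =
      (if i ∈ s then (lam i)⁻¹ else 0) • zt e i := zs_opQ z e he _ i
  rw [h3, if_pos hi]
  rfl

omit hl in
theorem LL_opP (s : Finset I) :
    LL z e (opP z e (fun i => if i ∈ s then lam i else 0)) = ∑ j ∈ s, ce e lam 0 j * cd z lam 1 j := by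
  unfold LL Dv
  rw [Fintype.sum_sum_type]
  have h2 : ∑ i, Cr (bs e (Sum.inl i) ∘ₗ opP z e (fun i => if i ∈ s then lam i else 0)) *
      An (bb z (Sum.inl i)) = 0 := by
    refine Finset.sum_eq_zero fun i _ => ?_
    have h3 : bs e (Sum.inl i) ∘ₗ opP z e (fun i => if i ∈ s then lam i else 0) = 0 :=
      zs_opP z e he _ i
    rw [h3]
    have h4 : CrL (M := V →ₗ[ℝ] ℂ) 0 = 0 := map_zero _
    have h5 : Cr (M := V →ₗ[ℝ] ℂ) 0 = 0 := h4
    rw [h5, zero_mul]
  rw [h2, zero_add, ← Finset.sum_filter_add_sum_filter_not Finset.univ (· ∈ s)]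
  have h6 : ∑ i ∈ Finset.univ.filter (fun i => ¬ i ∈ s),
      Cr (bs e (Sum.inr i) ∘ₗ opP z e (fun i => if i ∈ s then lam i else 0)) *
      An (bb z (Sum.inr i)) = 0 := by
    refine Finset.sum_eq_zero fun i hi => ?_
    have h3 : bs e (Sum.inr i) ∘ₗ opP z e (fun i => if i ∈ s then lam i else 0) =
        (if i ∈ s then lam i else 0) • zs e i := zt_opP z e he _ i
    rw [h3, if_neg (Finset.mem_filter.1 hi).2, zero_smul]
    have h4 : CrL (M := V →ₗ[ℝ] ℂ) 0 = 0 := map_zero _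
    have h5 : Cr (M := V →ₗ[ℝ] ℂ) 0 = 0 := h4
    rw [h5, zero_mul]
  rw [h6, add_zero, Finset.filter_mem_eq_inter, Finset.univ_inter]
  refine Finset.sum_congr rfl fun i hi => ?_
  have h3 : bs e (Sum.inr i) ∘ₗ opP z e (fun i => if i ∈ s then lam i else 0) =
      (if i ∈ s then lam i else 0) • zs e i := zt_opP z e he _ i
  rw [h3, if_pos hi, Cr_smul, smul_mul_assoc, ← mul_smul_comm]
  have h7 : cd z lam 1 i = lam i • An (zb z i) := An_smul _ _
  rw [h7]
  rfl

variable (hv : ∀ v, ∑ i, z i v • e i = v)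

include hv

/-- The derivation attached to an element of `D` on the creation operators. -/
theorem LL_ce {K : Type} (cl : I → K) (f g h : K → ℂ) {X : Module.End ℝ V}
    (hX : pb X = opR z e (fun i => f (cl i)) + opP z e (fun i => g (cl i) * lam i) +
      opQ z e (fun i => h (cl i) * (lam i)⁻¹)) (i : I) :
    LL z e (pb X) * ce e lam 0 i = ce e lam 0 i * LL z e (pb X) + f (cl i) • ce e lam 0 i +
      h (cl i) • ce e lam 1 i ∧
    LL z e (pb X) * ce e lam 1 i = ce e lam 1 i * LL z e (pb X) - f (cl i) • ce e lam 1 i +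
      g (cl i) • ce e lam 0 i := by
  constructor
  · have h1 : LL z e (pb X) * ce e lam 0 i = Cr (zs e i ∘ₗ pb X) + ce e lam 0 i * LL z e (pb X) :=
      Dv_Cr (bb z) (bs e) (hbb z e hv) (pb X) (zs e i)
    have h2 : zs e i ∘ₗ pb X = f (cl i) • fu e lam 0 i + h (cl i) • fu e lam 1 i := by
      rw [hX, LinearMap.comp_add, LinearMap.comp_add, zs_opR z e he, zs_opP z e he, zs_opQ z e he,
        add_zero]
      show f (cl i) • zs e i + (h (cl i) * (lam i)⁻¹) • zt e i =
        f (cl i) • zs e i + h (cl i) • ((lam i)⁻¹ • zt e i)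
      rw [smul_smul]
    rw [h1, h2, Cr_add, Cr_smul, Cr_smul]
    show f (cl i) • ce e lam 0 i + h (cl i) • ce e lam 1 i + ce e lam 0 i * LL z e (pb X) = _
    abel
  · have h1 : LL z e (pb X) * ce e lam 1 i = Cr (fu e lam 1 i ∘ₗ pb X) +
        ce e lam 1 i * LL z e (pb X) :=
      Dv_Cr (bb z) (bs e) (hbb z e hv) (pb X) (fu e lam 1 i)
    have h2 : fu e lam 1 i ∘ₗ pb X = -(f (cl i) • fu e lam 1 i) + g (cl i) • fu e lam 0 i := by
      show ((lam i)⁻¹ • zt e i) ∘ₗ pb X =
        -(f (cl i) • ((lam i)⁻¹ • zt e i)) + g (cl i) • zs e i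
      rw [hX, LinearMap.smul_comp, LinearMap.comp_add, LinearMap.comp_add, zt_opR z e he,
        zt_opP z e he, zt_opQ z e he, add_zero, smul_add, smul_neg, smul_smul, smul_smul, smul_smul,
        mul_comm (f (cl i)), mul_comm (lam i)⁻¹ (g (cl i) * lam i), mul_assoc (g (cl i)),
        mul_inv_cancel₀ (hl i), mul_one]
    rw [h1, h2, Cr_add]
    have h3' : CrL (-(f (cl i) • fu e lam 1 i)) = -(f (cl i) • CrL (fu e lam 1 i)) := by
      rw [map_neg, map_smul]
    have h3 : Cr (-(f (cl i) • fu e lam 1 i)) = -(f (cl i) • Cr (fu e lam 1 i)) := h3'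
    rw [h3, Cr_smul]
    show -(f (cl i) • ce e lam 1 i) + g (cl i) • ce e lam 0 i + ce e lam 1 i * LL z e (pb X) = _
    abel

/-- The derivation attached to an element of `D` on the annihilation operators. -/
theorem LL_cd {K : Type} (cl : I → K) (f g h : K → ℂ) {X : Module.End ℝ V}
    (hX : pb X = opR z e (fun i => f (cl i)) + opP z e (fun i => g (cl i) * lam i) +
      opQ z e (fun i => h (cl i) * (lam i)⁻¹)) (i : I) :
    LL z e (pb X) * cd z lam 0 i = cd z lam 0 i * LL z e (pb X) - f (cl i) • cd z lam 0 i -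
      g (cl i) • cd z lam 1 i ∧
    LL z e (pb X) * cd z lam 1 i = cd z lam 1 i * LL z e (pb X) + f (cl i) • cd z lam 1 i -
      h (cl i) • cd z lam 0 i := by
  constructor
  · have h1 : LL z e (pb X) * cd z lam 0 i = cd z lam 0 i * LL z e (pb X) - An (pb X (zz z i)) :=
      Dv_An (bb z) (bs e) (hbb z e hv) (pb X) (zz z i)
    have h2 : pb X (zz z i) = f (cl i) • ve z lam 0 i + g (cl i) • ve z lam 1 i := by
      rw [hX, LinearMap.add_apply, LinearMap.add_apply, opR_zz z e he, opP_zz z e he,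
        opQ_zz z e he, add_zero]
      show f (cl i) • zz z i + (g (cl i) * lam i) • zb z i =
        f (cl i) • zz z i + g (cl i) • (lam i • zb z i)
      rw [smul_smul]
    rw [h1, h2, An_add, An_smul, An_smul]
    show cd z lam 0 i * LL z e (pb X) - (f (cl i) • cd z lam 0 i + g (cl i) • cd z lam 1 i) = _
    abel
  · have h1 : LL z e (pb X) * cd z lam 1 i = cd z lam 1 i * LL z e (pb X) -
        An (pb X (ve z lam 1 i)) :=
      Dv_An (bb z) (bs e) (hbb z e hv) (pb X) (ve z lam 1 i)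
    have h2 : pb X (ve z lam 1 i) = (-f (cl i)) • ve z lam 1 i + h (cl i) • ve z lam 0 i := by
      show pb X (lam i • zb z i) = (-f (cl i)) • (lam i • zb z i) + h (cl i) • zz z i
      rw [map_smul, hX, LinearMap.add_apply, LinearMap.add_apply, opR_zb z e he, opP_zb z e he,
        opQ_zb z e he, add_zero, smul_add, smul_neg, smul_smul, smul_smul, smul_smul,
        mul_comm (lam i) (h (cl i) * (lam i)⁻¹), mul_assoc (h (cl i)),
        inv_mul_cancel₀ (hl i), mul_one, neg_mul, neg_smul, mul_comm (f (cl i))]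
    rw [h1, h2, An_add, An_smul, An_smul]
    show cd z lam 1 i * LL z e (pb X) - ((-f (cl i)) • cd z lam 1 i + h (cl i) • cd z lam 0 i) = _
    rw [ns]
    abel

/-- `N` commutes with the derivations. -/
theorem LL_N {K : Type} (cl : I → K) (f g h : K → ℂ) {X : Module.End ℝ V}
    (hX : pb X = opR z e (fun i => f (cl i)) + opP z e (fun i => g (cl i) * lam i) +
      opQ z e (fun i => h (cl i) * (lam i)⁻¹)) (s : Finset I) :
    LL z e (pb X) * (∑ j ∈ s, (cd z lam 0 j * ce e lam 0 j + cd z lam 1 j * ce e lam 1 j)) =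
      (∑ j ∈ s, (cd z lam 0 j * ce e lam 0 j + cd z lam 1 j * ce e lam 1 j)) * LL z e (pb X) := by
  rw [Finset.mul_sum, Finset.sum_mul]
  refine Finset.sum_congr rfl fun i _ => ?_
  obtain ⟨h1, h2⟩ := LL_ce z e lam he hl hv cl f g h hX i
  obtain ⟨h3, h4⟩ := LL_cd z e lam he hl hv cl f g h hX i
  rw [mul_add, ← mul_assoc, ← mul_assoc, h3, h4, add_mul, sub_mul, sub_mul, sub_mul, add_mul,
    mul_assoc (cd z lam 0 i), mul_assoc (cd z lam 1 i), h1, h2]
  simp only [mul_add, mul_sub, smul_mul_assoc, mul_smul_comm, mul_assoc]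
  abel

end ops

end W
end HC
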