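import Mathlib

/-!
# PROJECT HC+, part 3, THEOREM W: creation and annihilation operators (helper1)

`M` a complex vector space, `Alt m` the alternating `m`-forms on `M`, `Tot M = ∏_m Alt m`.
`Cr u` (`u : M → ℂ` linear) the exterior product with `u`, `An a` (`a : M`) the evaluation at `a`
in the first argument.
-/

set_option autoImplicit false

noncomputable section

namespace HC
namespace W

variable {M : Type} [AddCommGroup M] [Module ℂ M]

/-- Alternating forms of degree `m`. -/
abbrev Alt (M : Type) [AddCommGroup M] [Module ℂ M] (m : ℕ) : Type := M [⋀^Fin m]→ₗ[ℂ] ℂ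

/-- The exterior product with `u`. -/
def cr (u : M →ₗ[ℂ] ℂ) {m : ℕ} (c : Alt M m) : Alt M (m + 1) :=
  AlternatingMap.alternatizeUncurryFin (u.smulRight c)

/-- The evaluation at `a`. -/
def an (a : M) {m : ℕ} (c : Alt M (m + 1)) : Alt M m := c.curryLeft a

theorem cr_apply (u : M →ₗ[ℂ] ℂ) {m : ℕ} (c : Alt M m) (v : Fin (m + 1) → M) :
    cr u c v = ∑ i : Fin (m + 1), (-1 : ℂ) ^ (i : ℕ) * (u (v i) * c (i.removeNth v)) := by
  unfold cr
  rw [AlternatingMap.alternatizeUncurryFin_apply]
  refine Finset.sum_congr rfl fun i _ => ?_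
  rw [LinearMap.smulRight_apply, AlternatingMap.smul_apply, zsmul_eq_mul]
  push_cast
  rfl

theorem an_apply (a : M) {m : ℕ} (c : Alt M (m + 1)) (v : Fin m → M) :
    an a c v = c (Matrix.vecCons a v) := rfl

theorem an_cr (a : M) (u : M →ₗ[ℂ] ℂ) {m : ℕ} (c : Alt M (m + 1)) :
    an a (cr u c) = u a • c - cr u (an a c) := by
  ext v
  rw [an_apply, cr_apply, Fin.sum_univ_succ, AlternatingMap.sub_apply, AlternatingMap.smul_apply,
    cr_apply, sub_eq_add_neg, ← Finset.sum_neg_distrib]
  congr 1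
  · simp
  · refine Finset.sum_congr rfl fun i _ => ?_
    have h1 : (i.succ).removeNth (Matrix.vecCons a v) = Matrix.vecCons a (i.removeNth v) := by
      funext k
      refine Fin.cases ?_ (fun k => ?_) k
      · simp [Fin.removeNth]
      · simp [Fin.removeNth]
    rw [h1, an_apply]
    simp [pow_succ]

theorem an_cr_zero (a : M) (u : M →ₗ[ℂ] ℂ) (c : Alt M 0) : an a (cr u c) = u a • c := by
  ext v
  rw [an_apply, cr_apply]
  simp

theorem an_an (a b : M) {m : ℕ} (c : Alt M (m + 2)) : an a (an b c) = -an b (an a c) := by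
  have h : ∀ x : M, an x (an x c) = 0 := fun x => c.curryLeft_same x
  have hadd : ∀ (x y : M) {k : ℕ} (d : Alt M (k + 1)), an (x + y) d = an x d + an y d := by
    intro x y k d
    exact map_add d.curryLeft x y
  have hadd' : ∀ (x : M) {k : ℕ} (d d' : Alt M (k + 1)), an x (d + d') = an x d + an x d' := by
    intro x k d d'
    rfl
  have h3 := h (a + b)
  rw [hadd, hadd a b c, hadd', hadd', h a, h b, zero_add, add_zero] at h3
  exact eq_neg_of_add_eq_zero_left h3

theorem cr_cr (u w : M →ₗ[ℂ] ℂ) {m : ℕ} (c : Alt M m) : cr u (cr w c) = -cr w (cr u c) := by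
  let f : M →ₗ[ℂ] M →ₗ[ℂ] Alt M m := u.smulRight (w.smulRight c) + w.smulRight (u.smulRight c)
  have hf : ∀ x y, f x y = f y x := by
    intro x y
    show u x • (w y • c) + w x • (u y • c) = u y • (w x • c) + w y • (u x • c)
    rw [smul_smul, smul_smul, smul_smul, smul_smul, add_comm, mul_comm (w x), mul_comm (w y)]
  have h := AlternatingMap.alternatizeUncurryFin_alternatizeUncurryFinLM_comp_of_symmetric hf
  have h2 : AlternatingMap.alternatizeUncurryFinLM ∘ₗ f =
      u.smulRight (cr w c) + w.smulRight (cr u c) := by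
    refine LinearMap.ext fun x => ?_
    show AlternatingMap.alternatizeUncurryFin (u x • (w.smulRight c) + w x • (u.smulRight c)) =
      u x • cr w c + w x • cr u c
    rw [AlternatingMap.alternatizeUncurryFin_add, AlternatingMap.alternatizeUncurryFin_smul,
      AlternatingMap.alternatizeUncurryFin_smul]
    rfl
  rw [h2, AlternatingMap.alternatizeUncurryFin_add] at h
  exact eq_neg_of_add_eq_zero_left h

theorem cr_add_right (u : M →ₗ[ℂ] ℂ) {m : ℕ} (c d : Alt M m) : cr u (c + d) = cr u c + cr u d := by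
  ext v
  rw [AlternatingMap.add_apply, cr_apply, cr_apply, cr_apply, ← Finset.sum_add_distrib]
  refine Finset.sum_congr rfl fun i _ => ?_
  rw [AlternatingMap.add_apply]
  ring

theorem cr_smul_right (u : M →ₗ[ℂ] ℂ) {m : ℕ} (x : ℂ) (c : Alt M m) :
    cr u (x • c) = x • cr u c := by
  ext v
  rw [AlternatingMap.smul_apply, cr_apply, cr_apply, smul_eq_mul, Finset.mul_sum]
  refine Finset.sum_congr rfl fun i _ => ?_
  rw [AlternatingMap.smul_apply, smul_eq_mul]
  ring

theorem cr_add_left (u w : M →ₗ[ℂ] ℂ) {m : ℕ} (c : Alt M m) : cr (u + w) c = cr u c + cr w c := by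
  ext v
  rw [AlternatingMap.add_apply, cr_apply, cr_apply, cr_apply, ← Finset.sum_add_distrib]
  refine Finset.sum_congr rfl fun i _ => ?_
  rw [LinearMap.add_apply]
  ring

theorem cr_smul_left (x : ℂ) (u : M →ₗ[ℂ] ℂ) {m : ℕ} (c : Alt M m) :
    cr (x • u) c = x • cr u c := by
  ext v
  rw [AlternatingMap.smul_apply, cr_apply, cr_apply, smul_eq_mul, Finset.mul_sum]
  refine Finset.sum_congr rfl fun i _ => ?_
  rw [LinearMap.smul_apply, smul_eq_mul]
  ring

theorem alt_sum_apply {ι : Type} {m : ℕ} (s : Finset ι) (c : ι → Alt M m) (v : Fin m → M) :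
    (∑ i ∈ s, c i) v = ∑ i ∈ s, c i v := by
  classical
  induction s using Finset.induction_on with
  | empty => simp
  | insert i s hi ih => rw [Finset.sum_insert hi, Finset.sum_insert hi, AlternatingMap.add_apply, ih]

/-- The product over all degrees. -/
abbrev Tot (M : Type) [AddCommGroup M] [Module ℂ M] : Type := ∀ m : ℕ, Alt M m

/-- Creation. -/
def Cr (u : M →ₗ[ℂ] ℂ) : Module.End ℂ (Tot M) where
  toFun c := fun m => match m with
    | 0 => 0
    | k + 1 => cr u (c k)
  map_add' c d := by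
    funext m
    cases m with
    | zero => exact (add_zero _).symm
    | succ k => exact cr_add_right u _ _
  map_smul' x c := by
    funext m
    cases m with
    | zero => exact (smul_zero (A := Alt M 0) x).symm
    | succ k => exact cr_smul_right u _ _

/-- Annihilation. -/
def An (a : M) : Module.End ℂ (Tot M) where
  toFun c := fun m => an a (c (m + 1))
  map_add' _ _ := rfl
  map_smul' _ _ := rfl

theorem Cr_zero (u : M →ₗ[ℂ] ℂ) (c : Tot M) : Cr u c 0 = 0 := rfl

theorem Cr_succ (u : M →ₗ[ℂ] ℂ) (c : Tot M) (m : ℕ) : Cr u c (m + 1) = cr u (c m) := rfl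

theorem An_apply (a : M) (c : Tot M) (m : ℕ) : An a c m = an a (c (m + 1)) := rfl

theorem An_Cr (a : M) (u : M →ₗ[ℂ] ℂ) : An a * Cr u = u a • 1 - Cr u * An a := by
  refine LinearMap.ext fun c => funext fun m => ?_
  show an a (cr u (c m)) = u a • c m - Cr u (An a c) m
  cases m with
  | zero =>
    rw [an_cr_zero, Cr_zero, sub_zero]
  | succ k =>
    rw [an_cr, Cr_succ]
    rfl

theorem An_An (a b : M) : An a * An b = -(An b * An a) := by
  refine LinearMap.ext fun c => funext fun m => ?_
  exact an_an a b (c (m + 2))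

theorem Cr_Cr (u w : M →ₗ[ℂ] ℂ) : Cr u * Cr w = -(Cr w * Cr u) := by
  refine LinearMap.ext fun c => funext fun m => ?_
  cases m with
  | zero => exact (neg_zero).symm
  | succ k =>
    cases k with
    | zero =>
      show cr u (Cr w c 0) = -cr w (Cr u c 0)
      rw [Cr_zero, Cr_zero]
      ext v
      rw [AlternatingMap.neg_apply, cr_apply, cr_apply]
      simp
    | succ k => exact cr_cr u w (c k)

theorem Cr_add (u w : M →ₗ[ℂ] ℂ) : Cr (u + w) = Cr u + Cr w := by
  refine LinearMap.ext fun c => funext fun m => ?_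
  cases m with
  | zero => exact (add_zero _).symm
  | succ k => exact cr_add_left u w _

theorem Cr_smul (x : ℂ) (u : M →ₗ[ℂ] ℂ) : Cr (x • u) = x • Cr u := by
  refine LinearMap.ext fun c => funext fun m => ?_
  cases m with
  | zero => exact (smul_zero (A := Alt M 0) x).symm
  | succ k => exact cr_smul_left x u _

theorem An_add (a b : M) : An (a + b) = An a + An b := by
  refine LinearMap.ext fun c => funext fun m => ?_
  exact map_add (c (m + 1)).curryLeft a b

theorem An_smul (x : ℂ) (a : M) : An (x • a) = x • An a := by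
  refine LinearMap.ext fun c => funext fun m => ?_
  exact map_smul (c (m + 1)).curryLeft x a

/-- `Cr` as a linear map. -/
def CrL : (M →ₗ[ℂ] ℂ) →ₗ[ℂ] Module.End ℂ (Tot M) where
  toFun := Cr
  map_add' := Cr_add
  map_smul' x u := Cr_smul x u

/-- `An` as a linear map. -/
def AnL : M →ₗ[ℂ] Module.End ℂ (Tot M) where
  toFun := An
  map_add' := An_add
  map_smul' x a := An_smul x a

/-- A product of a creation and an annihilation operator is a derivation. -/
theorem Cr_An_apply (u : M →ₗ[ℂ] ℂ) (b : M) (c : Tot M) (m : ℕ) (v : Fin m → M) :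
    (Cr u * An b) c m v = ∑ i, u (v i) * c m (Function.update v i b) := by
  show Cr u (An b c) m v = _
  cases m with
  | zero =>
    rw [Cr_zero]
    simp
  | succ k =>
    rw [Cr_succ, cr_apply, An_apply]
    refine Finset.sum_congr rfl fun i _ => ?_
    rw [an_apply]
    have h := AlternatingMap.map_insertNth (c (k + 1)) i b (i.removeNth v)
    rw [Fin.insertNth_removeNth] at h
    rw [h, zsmul_eq_mul]
    push_cast
    ring

section fin

variable {κ : Type} [Fintype κ] (b : κ → M) (bs : κ → (M →ₗ[ℂ] ℂ))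

/-- The derivation attached to an endomorphism `X` of `M`. -/
def Dv (X : M →ₗ[ℂ] M) : Module.End ℂ (Tot M) := ∑ p, Cr (bs p ∘ₗ X) * An (b p)

variable (hb : ∀ a, ∑ p, bs p a • b p = a)

include hb

theorem Dv_apply (X : M →ₗ[ℂ] M) (c : Tot M) (m : ℕ) (v : Fin m → M) :
    Dv b bs X c m v = ∑ i, c m (Function.update v i (X (v i))) := by
  unfold Dv
  rw [LinearMap.sum_apply, Finset.sum_apply, alt_sum_apply]
  simp_rw [Cr_An_apply]
  rw [Finset.sum_comm]
  refine Finset.sum_congr rfl fun i _ => ?_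
  conv_rhs => rw [← hb (X (v i))]
  rw [AlternatingMap.map_update_sum]
  refine Finset.sum_congr rfl fun p _ => ?_
  rw [AlternatingMap.map_update_smul]
  rfl

theorem Dv_Cr (X : M →ₗ[ℂ] M) (u : M →ₗ[ℂ] ℂ) :
    Dv b bs X * Cr u = Cr (u ∘ₗ X) + Cr u * Dv b bs X := by
  have h : CrL (u ∘ₗ X) = ∑ p, u (b p) • Cr (bs p ∘ₗ X) := by
    have h1 : u ∘ₗ X = ∑ p, u (b p) • (bs p ∘ₗ X) := by
      refine LinearMap.ext fun a => ?_
      rw [LinearMap.comp_apply, LinearMap.sum_apply]
      conv_lhs => rw [← hb (X a)]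
      rw [map_sum]
      refine Finset.sum_congr rfl fun p _ => ?_
      rw [map_smul, LinearMap.smul_apply, smul_eq_mul, smul_eq_mul, mul_comm]
      rfl
    rw [h1, map_sum]
    refine Finset.sum_congr rfl fun p _ => ?_
    rw [map_smul]
    rfl
  have h2 : Cr (u ∘ₗ X) = ∑ p, u (b p) • Cr (bs p ∘ₗ X) := h
  rw [h2]
  unfold Dv
  rw [Finset.sum_mul, Finset.mul_sum, ← Finset.sum_add_distrib]
  refine Finset.sum_congr rfl fun p _ => ?_
  have e1 : Cr (bs p ∘ₗ X) * Cr u = -(Cr u * Cr (bs p ∘ₗ X)) := Cr_Cr _ _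
  have e2 : An (b p) * Cr u = u (b p) • 1 - Cr u * An (b p) := An_Cr _ _
  calc Cr (bs p ∘ₗ X) * An (b p) * Cr u = Cr (bs p ∘ₗ X) * (An (b p) * Cr u) := mul_assoc _ _ _
    _ = u (b p) • Cr (bs p ∘ₗ X) - (Cr (bs p ∘ₗ X) * Cr u) * An (b p) := by
        rw [e2, mul_sub, mul_smul_comm, mul_one, mul_assoc]
    _ = _ := by
        have e3 : -(Cr u * Cr (bs p ∘ₗ X)) * An (b p) = -(Cr u * (Cr (bs p ∘ₗ X) * An (b p))) := rfl
        rw [e1, e3, sub_neg_eq_add]

end fin

end W
end HC
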